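import Mathlib

set_option autoImplicit false

/-! Jacobi symbols of integers with the same local data at the primes dividing `W`. -/

namespace Pool.Agent.FQ5e

open scoped NumberTheorySymbols

/-- The part of `n` prime to `W`. -/
def fr (W n : ℕ) : ℕ := n / Nat.gcd n (W ^ n)

lemma fr_mul (W n : ℕ) : Nat.gcd n (W ^ n) * fr W n = n :=
  Nat.mul_div_cancel' (Nat.gcd_dvd_left _ _)

lemma fr_coprime {W n : ℕ} (_hW : W ≠ 0) (hn : n ≠ 0) : Nat.Coprime (fr W n) W := by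
  rw [Nat.coprime_iff_gcd_eq_one]
  by_contra h
  obtain ⟨r, hr, hrd⟩ := Nat.exists_prime_and_dvd h
  have h1 : r ∣ fr W n := hrd.trans (Nat.gcd_dvd_left _ _)
  have h2 : r ∣ W := hrd.trans (Nat.gcd_dvd_right _ _)
  set g := Nat.gcd n (W ^ n) with hg
  have hg0 : g ≠ 0 := by
    intro h0
    exact hn (Nat.eq_zero_of_gcd_eq_zero_left h0)
  have h3 : g * r ∣ n := by
    conv_rhs => rw [← fr_mul W n]
    exact Nat.mul_dvd_mul_left _ h1
  have h4 : g * r ∣ W ^ n := by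
    rw [Nat.dvd_iff_prime_pow_dvd_dvd]
    intro q k hq hk
    by_cases hqr : q = r
    · subst hqr
      have hle : q ^ k ≤ n := Nat.le_of_dvd (Nat.pos_of_ne_zero hn) (hk.trans h3)
      have hk2 : k ≤ n := ((Nat.lt_pow_self hq.one_lt).trans_le hle).le
      exact (pow_dvd_pow _ hk2).trans (pow_dvd_pow_of_dvd h2 n)
    · have hc : Nat.Coprime (q ^ k) r :=
        Nat.Coprime.pow_left _ ((Nat.coprime_primes hq hr).2 hqr)
      exact (hc.dvd_of_dvd_mul_right hk).trans (Nat.gcd_dvd_right _ _)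
  have h5 : g * r ∣ g := Nat.dvd_gcd h3 h4
  have h6 : g * r ≤ g := Nat.le_of_dvd (Nat.pos_of_ne_zero hg0) h5
  have h7 : 2 ≤ r := hr.two_le
  nlinarith [Nat.pos_of_ne_zero hg0]

lemma fr_eq {W u b k : ℕ} (hW : W ≠ 0) (hu : u ∣ W ^ k) (hb : Nat.Coprime b W) (hb0 : b ≠ 0) :
    fr W (u * b) = b := by
  have hu0 : u ≠ 0 := by
    rintro rfl
    exact pow_ne_zero k hW (Nat.eq_zero_of_zero_dvd hu)
  have hn : u * b ≠ 0 := mul_ne_zero hu0 hb0
  have h1 := fr_mul W (u * b)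
  have h2 := fr_coprime hW hn
  apply Nat.dvd_antisymm
  · have hc : Nat.Coprime (fr W (u * b)) u := (h2.pow_right k).coprime_dvd_right hu
    exact hc.dvd_of_dvd_mul_left ⟨Nat.gcd (u * b) (W ^ (u * b)), by rw [mul_comm (fr _ _), h1]⟩
  · have hc : Nat.Coprime b (Nat.gcd (u * b) (W ^ (u * b))) :=
      (hb.pow_right _).coprime_dvd_right (Nat.gcd_dvd_right _ _)
    exact hc.dvd_of_dvd_mul_left (by rw [h1]; exact Dvd.intro_left _ rfl)

lemma odd_of_coprime {W b : ℕ} (h2 : 2 ∣ W) (hb : Nat.Coprime b W) : Odd b := by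
  have : Nat.Coprime b 2 := hb.coprime_dvd_right h2
  exact (Nat.coprime_two_right).1 this

lemma jac_nat_periodic {W n n' : ℕ} (hW : W ≠ 0) (hn : Odd n) (hn' : Odd n')
    (h : n ≡ n' [MOD 4 * W]) (u : ℕ) : ∀ k, u ∣ W ^ k → J((u : ℤ) | n) = J((u : ℤ) | n') := by
  induction u using induction_on_primes with
  | zero =>
    intro k hk
    exact absurd (Nat.eq_zero_of_zero_dvd hk) (pow_ne_zero k hW)
  | one => intro k _; simp
  | prime_mul p a hp ih =>
    intro k hk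
    have hpW : p ∣ W := hp.dvd_of_dvd_pow ((Dvd.intro _ rfl).trans hk)
    have h1 : J((p : ℤ) | n) = J((p : ℤ) | n') := by
      rw [jacobiSym.mod_right' p hn, jacobiSym.mod_right' p hn']
      have : n ≡ n' [MOD 4 * p] := h.of_dvd (Nat.mul_dvd_mul_left 4 hpW)
      rw [this]
    push_cast
    rw [jacobiSym.mul_left, jacobiSym.mul_left, h1, ih k ((Dvd.intro_left _ rfl).trans hk)]

lemma chi4_congr {n n' : ℕ} (h : n ≡ n' [MOD 4]) : ZMod.χ₄ (n : ZMod 4) = ZMod.χ₄ (n' : ZMod 4) := by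
  rw [(ZMod.natCast_eq_natCast_iff _ _ _).2 h]

lemma jac_periodic {W n n' k : ℕ} (hW : W ≠ 0) (hn : Odd n) (hn' : Odd n')
    (h : n ≡ n' [MOD 4 * W]) {α : ℤ} (hα : α.natAbs ∣ W ^ k) : J(α | n) = J(α | n') := by
  have h4 : n ≡ n' [MOD 4] := h.of_dvd (Dvd.intro _ rfl)
  rcases Int.natAbs_eq α with e | e
  · rw [e]; exact jac_nat_periodic hW hn hn' h _ k hα
  · rw [e, jacobiSym.neg _ hn, jacobiSym.neg _ hn', chi4_congr h4,
      jac_nat_periodic hW hn hn' h _ k hα]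

/-- `a` and `b` have the same local data at the primes dividing `W` and at infinity. -/
def Sim (W : ℕ) (a b : ℤ) : Prop :=
  ∃ (α : ℤ) (s k : ℕ), α.natAbs ∣ W ^ k ∧ s ∣ W ^ k ∧ a ≠ 0 ∧ b ≠ 0 ∧
    a = α * (fr W a.natAbs : ℕ) ∧ b = α * (s : ℤ) ^ 2 * (fr W b.natAbs : ℕ) ∧
    fr W a.natAbs ≡ fr W b.natAbs [MOD 4 * W]

lemma jac_sq_one {W s k n : ℕ} (hs : s ∣ W ^ k) (hn : Nat.Coprime n W) :
    J((s : ℤ) ^ 2 | n) = 1 := by
  apply jacobiSym.sq_one'
  have : Nat.Coprime s n := ((hn.pow_right k).coprime_dvd_right hs).symm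
  simpa using this

lemma jac_mul_self {W k n : ℕ} {α : ℤ} (hs : α.natAbs ∣ W ^ k) (hn : Nat.Coprime n W) :
    J(α | n) * J(α | n) = 1 := by
  rw [← sq]
  apply jacobiSym.sq_one
  have : Nat.Coprime α.natAbs n := ((hn.pow_right k).coprime_dvd_right hs).symm
  simpa [Int.gcd] using this

lemma Sim.smooth {W k : ℕ} (hW : W ≠ 0) (h2 : 2 ∣ W) {b b2 c : ℤ} (hb : Sim W b b2)
    (hc : c.natAbs ∣ W ^ k) : J(c | fr W b.natAbs) = J(c | fr W b2.natAbs) := by
  obtain ⟨β, t, l, -, -, hb0, hb20, -, -, hm⟩ := hb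
  exact jac_periodic hW (odd_of_coprime h2 (fr_coprime hW (Int.natAbs_ne_zero.2 hb0)))
    (odd_of_coprime h2 (fr_coprime hW (Int.natAbs_ne_zero.2 hb20))) hm hc

lemma Sim.swap {W : ℕ} (hW : W ≠ 0) (h2 : 2 ∣ W) {a a2 b b2 : ℤ} (ha : Sim W a a2)
    (hb : Sim W b b2) (h : J(b | fr W a.natAbs) = J(b2 | fr W a2.natAbs)) :
    J(a | fr W b.natAbs) = J(a2 | fr W b2.natAbs) := by
  have hsa := fun (c : ℤ) (k : ℕ) (hc : c.natAbs ∣ W ^ k) => ha.smooth hW h2 hc
  have hsb := fun (c : ℤ) (k : ℕ) (hc : c.natAbs ∣ W ^ k) => hb.smooth hW h2 hc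
  obtain ⟨α, s, k, hα, hs, ha0, ha20, ea, ea2, hma⟩ := ha
  obtain ⟨β, t, l, hβ, ht, hb0, hb20, eb, eb2, hmb⟩ := hb
  have ca := fr_coprime hW (Int.natAbs_ne_zero.2 ha0)
  have ca2 := fr_coprime hW (Int.natAbs_ne_zero.2 ha20)
  have cb := fr_coprime hW (Int.natAbs_ne_zero.2 hb0)
  have cb2 := fr_coprime hW (Int.natAbs_ne_zero.2 hb20)
  set a' := fr W a.natAbs
  set a2' := fr W a2.natAbs
  set b' := fr W b.natAbs
  set b2' := fr W b2.natAbs
  have oa := odd_of_coprime h2 ca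
  have oa2 := odd_of_coprime h2 ca2
  have ob := odd_of_coprime h2 cb
  have ob2 := odd_of_coprime h2 cb2
  have q1 : qrSign b' a' = qrSign b2' a2' := by
    unfold qrSign
    rw [chi4_congr (hmb.of_dvd (Dvd.intro _ rfl))]
    apply hsa _ 0
    have := ZMod.χ₄_nat_eq_if_mod_four b2'
    have ho : b2' % 2 ≠ 0 := by have := Nat.odd_iff.1 ob2; omega
    rw [this, if_neg ho]
    split_ifs <;> simp
  have e1 : J((b' : ℤ) | a') = J((b2' : ℤ) | a2') := by
    rw [eb, eb2, jacobiSym.mul_left, jacobiSym.mul_left, jacobiSym.mul_left, jac_sq_one ht ca2,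
      mul_one, ← hsa β l hβ] at h
    have := congrArg (fun z => J(β | a') * z) h
    simp only [← mul_assoc, jac_mul_self hβ ca, one_mul] at this
    exact this
  rw [ea, ea2, jacobiSym.mul_left, jacobiSym.mul_left, jacobiSym.mul_left, jac_sq_one hs cb2,
    mul_one, ← hsb α k hα, jacobiSym.quadratic_reciprocity' oa ob,
    jacobiSym.quadratic_reciprocity' oa2 ob2, q1, e1]

end Pool.Agent.FQ5e
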