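import Mathlib
import Pool.Agent.Lib.MP_5e2fbc_nt.Sim

set_option autoImplicit false

/-! Jacobi symbols of values of integer polynomials along the powers of a base `a`. -/

namespace Pool.Agent.FQ5e

open scoped NumberTheorySymbols Nat
open Polynomial Filter

/-- The relation holds for all large `e` and all `e2 ≥ e` close to `e` at the primes up to `W`. -/
def Ev (W : ℕ) (R : ℕ → ℕ → Prop) : Prop :=
  ∃ e0, ∀ e ≥ e0, ∃ K, ∀ e2 ≥ e, (W !) ^ K ∣ e2 - e → R e e2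

lemma Ev.and {W : ℕ} {R S : ℕ → ℕ → Prop} (h1 : Ev W R) (h2 : Ev W S) :
    Ev W (fun e e2 => R e e2 ∧ S e e2) := by
  obtain ⟨a, ha⟩ := h1
  obtain ⟨b, hb⟩ := h2
  refine ⟨max a b, fun e he => ?_⟩
  obtain ⟨K, hK⟩ := ha e (le_of_max_le_left he)
  obtain ⟨L, hL⟩ := hb e (le_of_max_le_right he)
  refine ⟨K + L, fun e2 h2 hd => ⟨hK e2 h2 ?_, hL e2 h2 ?_⟩⟩
  · exact (pow_dvd_pow _ (Nat.le_add_right _ _)).trans hd
  · exact (pow_dvd_pow _ (Nat.le_add_left _ _)).trans hd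

lemma Ev.mono {W : ℕ} {R S : ℕ → ℕ → Prop} (h1 : Ev W R) (h : ∀ e e2, R e e2 → S e e2) :
    Ev W S := by
  obtain ⟨a, ha⟩ := h1
  refine ⟨a, fun e he => ?_⟩
  obtain ⟨K, hK⟩ := ha e he
  exact ⟨K, fun e2 h2 hd => h _ _ (hK e2 h2 hd)⟩

lemma totient_dvd {W : ℕ} (hW : W ≠ 0) (v : ℕ) :
    ∀ k, v ∣ W ^ k → ∃ K, Nat.totient v ∣ (W !) ^ K := by
  induction v using induction_on_primes with
  | zero =>
    intro k hk
    exact absurd (Nat.eq_zero_of_zero_dvd hk) (pow_ne_zero k hW)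
  | one => intro k _; exact ⟨0, by simp⟩
  | prime_mul p b hp ih =>
    intro k hk
    have hpW : p ∣ W := hp.dvd_of_dvd_pow ((Dvd.intro _ rfl).trans hk)
    have hle : p ≤ W := Nat.le_of_dvd (Nat.pos_of_ne_zero hW) hpW
    obtain ⟨K, hK⟩ := ih k ((Dvd.intro_left _ rfl).trans hk)
    refine ⟨K + 1, ?_⟩
    rw [pow_succ']
    by_cases hd : p ∣ b
    · rw [Nat.totient_mul_of_prime_of_dvd hp hd]
      exact Nat.mul_dvd_mul (Nat.dvd_factorial hp.pos hle) hK
    · rw [Nat.totient_mul_of_prime_of_not_dvd hp hd]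
      have := hp.two_le
      exact Nat.mul_dvd_mul (Nat.dvd_factorial (by omega) (by omega)) hK

lemma sign_ev {a : ℕ} (ha : 2 ≤ a) {h : ℤ[X]} (hh : h ≠ 0) :
    ∃ e1, ∀ e ≥ e1, 0 < h.leadingCoeff * h.eval ((a : ℤ) ^ e) := by
  have hl : h.leadingCoeff ≠ 0 := leadingCoeff_ne_zero.2 hh
  by_cases hd : h.natDegree = 0
  · refine ⟨0, fun e _ => ?_⟩
    have e1 := eq_C_of_natDegree_eq_zero hd
    have e2 : h.leadingCoeff = h.coeff 0 := by rw [leadingCoeff, hd]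
    rw [e1, eval_C, leadingCoeff_C]
    exact mul_self_pos.2 (e2 ▸ hl)
  · set P : ℝ[X] := (C h.leadingCoeff * h).map (Int.castRingHom ℝ) with hP
    have hinj : Function.Injective (Int.castRingHom ℝ) := Int.cast_injective
    have hdeg : 0 < P.degree := by
      rw [hP, degree_map_eq_of_injective hinj, degree_C_mul hl]
      exact natDegree_pos_iff_degree_pos.1 (Nat.pos_of_ne_zero hd)
    have hlc : 0 ≤ P.leadingCoeff := by
      rw [hP, leadingCoeff_map_of_injective hinj, leadingCoeff_mul, leadingCoeff_C]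
      simpa using mul_self_nonneg (h.leadingCoeff : ℝ)
    have t1 := P.tendsto_atTop_of_leadingCoeff_nonneg hdeg hlc
    have t2 : Tendsto (fun e : ℕ => (a : ℝ) ^ e) atTop atTop :=
      tendsto_pow_atTop_atTop_of_one_lt (by exact_mod_cast ha)
    have t3 := (t1.comp t2).eventually_gt_atTop 0
    obtain ⟨e1, he1⟩ := eventually_atTop.1 t3
    refine ⟨e1, fun e he => ?_⟩
    have := he1 e he
    simp only [Function.comp, hP] at this
    have e3 : ((a : ℝ) ^ e) = (Int.castRingHom ℝ) ((a : ℤ) ^ e) := by simp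
    rw [e3, eval_map, eval₂_hom, eval_mul, eval_C] at this
    exact Int.cast_pos.1
      (show (0 : ℝ) < ((h.leadingCoeff * h.eval ((a : ℤ) ^ e) : ℤ) : ℝ) from this)

lemma congr_ev {a W : ℕ} (ha : 2 ≤ a) (hW : W ≠ 0) (h2 : 2 ∣ W) {h : ℤ[X]}
    (h0 : h.eval 0 ≠ 0) :
    Ev W (fun e e2 => h.eval ((a : ℤ) ^ e) ≠ 0 →
      ((4 * W * Nat.gcd (h.eval ((a : ℤ) ^ e)).natAbs (W ^ (h.eval ((a : ℤ) ^ e)).natAbs) : ℕ) : ℤ)
        ∣ h.eval ((a : ℤ) ^ e2) - h.eval ((a : ℤ) ^ e)) := by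
  refine ⟨4 * W * (h.eval 0).natAbs, fun e he => ?_⟩
  set x := h.eval ((a : ℤ) ^ e) with hx
  set g := Nat.gcd x.natAbs (W ^ x.natAbs) with hg
  set M := 4 * W * g with hM
  have hMW : M ∣ W ^ (3 + x.natAbs) := by
    rw [pow_add]
    refine Nat.mul_dvd_mul ?_ (Nat.gcd_dvd_right _ _)
    obtain ⟨t, rfl⟩ := h2
    exact ⟨t ^ 2, by ring⟩
  have hM0 : M ≠ 0 := by
    rintro h
    rw [h] at hMW
    exact pow_ne_zero _ hW (Nat.eq_zero_of_zero_dvd hMW)
  have ha0 : a ≠ 0 := by omega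
  have hv : fr a M ∣ W ^ (3 + x.natAbs) := (Dvd.intro_left _ (fr_mul a M)).trans hMW
  obtain ⟨K, hK⟩ := totient_dvd hW _ _ hv
  refine ⟨K, fun e2 he2 hd _ => ?_⟩
  have hvc : Nat.Coprime (fr a M) a := fr_coprime ha0 hM0
  have hu : Nat.gcd M (a ^ M) ∣ a ^ e := by
    rw [Nat.dvd_iff_prime_pow_dvd_dvd]
    intro q k hq hk
    rcases Nat.eq_zero_or_pos k with rfl | hk0
    · simp
    have hqa : q ∣ a :=
      hq.dvd_of_dvd_pow ((dvd_pow_self q hk0.ne').trans (hk.trans (Nat.gcd_dvd_right _ _)))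
    have hqe : q ^ e ∣ a ^ e := pow_dvd_pow_of_dvd hqa e
    by_cases hke : k ≤ e
    · exact (pow_dvd_pow _ hke).trans hqe
    · exfalso
      have d1 : q ^ e ∣ M := (pow_dvd_pow _ (by omega)).trans (hk.trans (Nat.gcd_dvd_left _ _))
      have d2 : ((q ^ e : ℕ) : ℤ) ∣ 4 * W * x := by
        have : M ∣ 4 * W * x.natAbs := Nat.mul_dvd_mul_left _ (Nat.gcd_dvd_left _ _)
        have := Int.natCast_dvd.2 (show q ^ e ∣ (4 * W * x).natAbs by
          simpa [Int.natAbs_mul] using d1.trans this)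
        exact this
      have d3 : ((q ^ e : ℕ) : ℤ) ∣ x - h.eval 0 := by
        have := sub_dvd_eval_sub ((a : ℤ) ^ e) 0 h
        rw [sub_zero] at this
        exact (by exact_mod_cast hqe : ((q ^ e : ℕ) : ℤ) ∣ (a : ℤ) ^ e).trans this
      have d4 : ((q ^ e : ℕ) : ℤ) ∣ 4 * W * h.eval 0 := by
        have := dvd_sub d2 (d3.mul_left (4 * W))
        have e1 : 4 * (W : ℤ) * x - 4 * W * (x - h.eval 0) = 4 * W * h.eval 0 := by ring
        rwa [e1] at this
      have d5 : q ^ e ∣ 4 * W * (h.eval 0).natAbs := by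
        have := Int.natCast_dvd.1 d4
        simpa [Int.natAbs_mul] using this
      have d6 := Nat.le_of_dvd (by have := Int.natAbs_pos.2 h0; positivity) d5
      have d7 : e < q ^ e := Nat.lt_pow_self hq.one_lt
      omega
  have hv2 : ((fr a M : ℕ) : ℤ) ∣ (a : ℤ) ^ (e2 - e) - 1 := by
    obtain ⟨t, ht⟩ := hK.trans hd
    have m1 : a ^ Nat.totient (fr a M) ≡ 1 [MOD fr a M] := Nat.ModEq.pow_totient hvc.symm
    have m2 : a ^ (e2 - e) ≡ 1 [MOD fr a M] := by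
      rw [ht, pow_mul]
      simpa using m1.pow t
    have := (Nat.modEq_iff_dvd.1 m2.symm)
    simpa using this
  have hM2 : (M : ℤ) ∣ (a : ℤ) ^ e2 - (a : ℤ) ^ e := by
    have e1 : (a : ℤ) ^ e2 - (a : ℤ) ^ e = (a : ℤ) ^ e * ((a : ℤ) ^ (e2 - e) - 1) := by
      rw [mul_sub, ← pow_add, Nat.add_sub_cancel' he2, mul_one]
    rw [e1, ← fr_mul a M]
    push_cast
    exact mul_dvd_mul (by exact_mod_cast hu) hv2
  exact hM2.trans (sub_dvd_eval_sub _ _ h)

lemma stable {a W : ℕ} (ha : 2 ≤ a) (hW : W ≠ 0) (h2a : 2 * a ∣ W) {h : ℤ[X]} (hh : h ≠ 0) :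
    Ev W (fun e e2 => Sim W (h.eval ((a : ℤ) ^ e)) (h.eval ((a : ℤ) ^ e2))) := by
  have h2 : 2 ∣ W := (Dvd.intro _ rfl).trans h2a
  have haW : a ∣ W := (Dvd.intro_left _ rfl).trans h2a
  obtain ⟨q, hq, hnd⟩ := exists_eq_pow_rootMultiplicity_mul_and_not_dvd h hh 0
  set i := h.rootMultiplicity 0
  have hq0 : q.eval 0 ≠ 0 := fun h0 => hnd (dvd_iff_isRoot.2 h0)
  have hqn : q ≠ 0 := by rintro rfl; simp at hq0
  obtain ⟨e1, he1⟩ := sign_ev ha hqn
  have E1 : Ev W (fun e e2 => e1 ≤ e ∧ e ≤ e2 ∧ 2 ∣ e2 - e) := by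
    refine ⟨e1, fun e he => ⟨1, fun e2 he2 hd => ⟨he, he2, ?_⟩⟩⟩
    rw [pow_one] at hd
    exact (Nat.dvd_factorial (by norm_num) (Nat.le_of_dvd (Nat.pos_of_ne_zero hW) h2)).trans hd
  refine (E1.and (congr_ev ha hW h2 hq0)).mono ?_
  rintro e e2 ⟨⟨hee, hle, t, ht⟩, hc⟩
  have s1 := he1 e hee
  have s2 := he1 e2 (hee.trans hle)
  set x := q.eval ((a : ℤ) ^ e) with hx
  set y := q.eval ((a : ℤ) ^ e2) with hy
  have hx0 : x ≠ 0 := by rintro h0; rw [h0] at s1; simp at s1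
  have hy0 : y ≠ 0 := by rintro h0; rw [h0] at s2; simp at s2
  have hc1 := hc hx0
  set g := Nat.gcd x.natAbs (W ^ x.natAbs) with hg
  have hgW : g ∣ W ^ x.natAbs := Nat.gcd_dvd_right _ _
  have hgx : g * fr W x.natAbs = x.natAbs := fr_mul _ _
  set b := fr W x.natAbs with hb
  have hbc : Nat.Coprime b W := fr_coprime hW (Int.natAbs_ne_zero.2 hx0)
  have hg0 : g ≠ 0 := by
    rintro h0
    rw [h0] at hgW
    exact pow_ne_zero _ hW (Nat.eq_zero_of_zero_dvd hgW)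
  obtain ⟨σ, hσ, ex, ey⟩ : ∃ σ : ℤ, σ.natAbs = 1 ∧ x = σ * x.natAbs ∧ y = σ * y.natAbs := by
    rcases lt_or_gt_of_ne hx0 with hx1 | hx1
    · have hl : q.leadingCoeff < 0 := by
        by_contra hl
        nlinarith [not_lt.1 hl]
      have hy1 : y < 0 := by
        by_contra hl2
        nlinarith [not_lt.1 hl2]
      refine ⟨-1, rfl, ?_, ?_⟩ <;> omega
    · have hl : 0 < q.leadingCoeff := by
        by_contra hl
        nlinarith [not_lt.1 hl]
      have hy1 : 0 < y := by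
        by_contra hl2
        nlinarith [not_lt.1 hl2]
      refine ⟨1, rfl, ?_, ?_⟩ <;> omega
  have hmod : x.natAbs ≡ y.natAbs [MOD 4 * W * g] := by
    rw [Nat.modEq_iff_dvd]
    have e3 : y - x = σ * ((y.natAbs : ℤ) - x.natAbs) := by
      rw [mul_sub, ← ex, ← ey]
    rw [e3] at hc1
    have hu : IsUnit σ := Int.isUnit_iff_natAbs_eq.2 hσ
    exact (hu.dvd_mul_left).1 hc1
  have hgy : g ∣ y.natAbs := by
    have := (hmod.of_dvd (Dvd.intro_left _ rfl : g ∣ 4 * W * g)).dvd_iff (dvd_refl g)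
    exact this.1 (Dvd.intro _ hgx)
  obtain ⟨b2, hb2⟩ := hgy
  have hbb : b ≡ b2 [MOD 4 * W] := by
    rw [← hgx, hb2, mul_comm (4 * W) g] at hmod
    exact Nat.ModEq.mul_left_cancel' hg0 hmod
  have hb2c : Nat.Coprime b2 W := by
    have : b ≡ b2 [MOD W] := hbb.of_dvd (Dvd.intro_left _ rfl)
    rw [Nat.Coprime, ← this.gcd_eq]
    exact hbc
  have hb0 : b ≠ 0 := by
    rintro h0
    rw [h0, mul_zero] at hgx
    exact hx0 (Int.natAbs_eq_zero.1 hgx.symm)
  have hb20 : b2 ≠ 0 := by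
    rintro h0
    rw [h0, mul_zero] at hb2
    exact hy0 (Int.natAbs_eq_zero.1 hb2)
  have v1 : h.eval ((a : ℤ) ^ e) = ((a : ℤ) ^ e) ^ i * x := by
    conv_lhs => rw [hq]
    simp [hx]
  have v2 : h.eval ((a : ℤ) ^ e2) = ((a : ℤ) ^ e2) ^ i * y := by
    conv_lhs => rw [hq]
    simp [hy]
  have hpow : ∀ f : ℕ, (a ^ f) ^ i * g ∣ W ^ (f * i + x.natAbs) := by
    intro f
    rw [pow_add, ← pow_mul]
    exact Nat.mul_dvd_mul (pow_dvd_pow_of_dvd haW _) hgW
  have f1 : fr W (h.eval ((a : ℤ) ^ e)).natAbs = b := by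
    rw [v1, Int.natAbs_mul, ← hgx, ← mul_assoc]
    simp only [Int.natAbs_pow, Int.natAbs_natCast]
    exact fr_eq hW (hpow e) hbc hb0
  have f2 : fr W (h.eval ((a : ℤ) ^ e2)).natAbs = b2 := by
    rw [v2, Int.natAbs_mul, hb2, ← mul_assoc]
    simp only [Int.natAbs_pow, Int.natAbs_natCast]
    exact fr_eq hW (hpow e2) hb2c hb20
  have ha0 : (a : ℤ) ≠ 0 := by exact_mod_cast (by omega : a ≠ 0)
  refine ⟨σ * (((a ^ e) ^ i * g : ℕ) : ℤ), (a ^ t) ^ i, e * i + x.natAbs + t * i, ?_, ?_, ?_, ?_,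
    ?_, ?_, ?_⟩
  · rw [Int.natAbs_mul, hσ, one_mul, Int.natAbs_natCast]
    exact (hpow e).trans (pow_dvd_pow _ (Nat.le_add_right _ _))
  · rw [← pow_mul]
    exact (pow_dvd_pow_of_dvd haW _).trans (pow_dvd_pow _ (Nat.le_add_left _ _))
  · rw [v1]; exact mul_ne_zero (by positivity) hx0
  · rw [v2]; exact mul_ne_zero (by positivity) hy0
  · rw [f1, v1]
    conv_lhs => rw [ex, ← hgx]
    push_cast; ring
  · rw [f2, v2]
    conv_lhs => rw [ey, hb2, show e2 = e + 2 * t by omega]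
    push_cast; ring
  · rw [f1, f2]; exact hbb

/-- The Jacobi symbol of `f` over the part of `g` prime to `W` is stable along the powers. -/
def JS (a : ℕ) (f g : ℤ[X]) : Prop :=
  ∃ W0 : ℕ, W0 ≠ 0 ∧ ∀ W : ℕ, W0 ∣ W → 2 * a ∣ W → W ≠ 0 →
    Ev W (fun e e2 => J(f.eval ((a : ℤ) ^ e) | fr W (g.eval ((a : ℤ) ^ e)).natAbs) =
      J(f.eval ((a : ℤ) ^ e2) | fr W (g.eval ((a : ℤ) ^ e2)).natAbs))

theorem js_main {a : ℕ} (ha : 2 ≤ a) : ∀ (n : ℕ) (g : ℤ[X]), g.natDegree = n → g ≠ 0 →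
    ∀ (k : ℕ) (f : ℤ[X]), f.natDegree = k → ∀ (u v : ℤ[X]) (c : ℤ), c ≠ 0 →
      u * f + v * g = C c → JS a f g := by
  intro n
  induction n using Nat.strong_induction_on with
  | _ n ihn =>
  intro g hgn hg k
  induction k using Nat.strong_induction_on with
  | _ k ihk =>
  intro f hfk u v c hc hb
  by_cases hn : n = 0
  · have e1 := eq_C_of_natDegree_eq_zero (hgn.trans hn)
    have hd : g.coeff 0 ≠ 0 := by
      intro h0
      rw [h0] at e1
      exact hg (by simpa using e1)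
    refine ⟨(g.coeff 0).natAbs, Int.natAbs_ne_zero.2 hd, fun W hW0 _ hW => ⟨0, fun e _ =>
      ⟨0, fun e2 _ _ => ?_⟩⟩⟩
    have : fr W (g.coeff 0).natAbs = 1 := by
      have := fr_eq (k := 1) (b := 1) hW (by simpa using hW0) (by simp) one_ne_zero
      simpa using this
    rw [e1]
    simp only [eval_C, this, jacobiSym.one_right]
  have hf : f ≠ 0 := by
    rintro rfl
    have hd : g ∣ C c := ⟨v, by rw [← hb]; ring⟩
    have := natDegree_le_of_dvd hd (by simpa using hc)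
    rw [natDegree_C] at this
    omega
  by_cases hlt : k < n
  · obtain ⟨W0, hW0, H⟩ := ihn k hlt f hfk hf _ g rfl v u c hc (by rw [← hb]; ring)
    refine ⟨W0, hW0, fun W h1 h2 hW => ?_⟩
    refine ((H W h1 h2 hW).and ((stable ha hW h2 hf).and (stable ha hW h2 hg))).mono ?_
    rintro e e2 ⟨j1, s1, s2⟩
    exact Sim.swap hW ((Dvd.intro _ rfl).trans h2) s1 s2 j1
  · have hle : g.natDegree ≤ f.natDegree := by omega
    have hlt2 := natDegree_cancelLeads_lt_of_natDegree_le_natDegree hle (by omega)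
    have hl : g.leadingCoeff ≠ 0 := leadingCoeff_ne_zero.2 hg
    have er : g.cancelLeads f = C g.leadingCoeff * f -
        C f.leadingCoeff * X ^ (f.natDegree - g.natDegree) * g := by
      rw [cancelLeads, Nat.sub_eq_zero_of_le hle, pow_zero, mul_one]
    obtain ⟨W0, hW0, H⟩ := ihk _ (hfk ▸ hlt2) (g.cancelLeads f) rfl u
      (C g.leadingCoeff * v + u * (C f.leadingCoeff * X ^ (f.natDegree - g.natDegree)))
      (g.leadingCoeff * c) (mul_ne_zero hl hc) (by rw [er, C_mul, ← hb]; ring)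
    refine ⟨W0 * g.leadingCoeff.natAbs, mul_ne_zero hW0 (Int.natAbs_ne_zero.2 hl),
      fun W h1 h2 hW => ?_⟩
    have h2W : 2 ∣ W := (Dvd.intro _ rfl).trans h2
    refine ((H W ((Dvd.intro _ rfl).trans h1) h2 hW).and (stable ha hW h2 hg)).mono ?_
    rintro e e2 ⟨j1, s2⟩
    have hlW : g.leadingCoeff.natAbs ∣ W ^ 1 := by
      rw [pow_one]; exact (Dvd.intro_left _ rfl).trans h1
    have key : ∀ y : ℤ, J((g.cancelLeads f).eval y | fr W (g.eval y).natAbs) =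
        J(g.leadingCoeff | fr W (g.eval y).natAbs) * J(f.eval y | fr W (g.eval y).natAbs) := by
      intro y
      rw [← jacobiSym.mul_left]
      apply jacobiSym.mod_left'
      have hd : ((fr W (g.eval y).natAbs : ℕ) : ℤ) ∣ g.eval y :=
        Int.natCast_dvd.2 (Dvd.intro_left _ (fr_mul W _))
      rw [er]
      simp only [eval_sub, eval_mul, eval_C]
      apply Int.ModEq.symm
      rw [Int.modEq_iff_dvd]
      have e4 : ∀ A B : ℤ, A - B - A = -B := fun A B => by ring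
      rw [e4]
      exact (hd.mul_left _).neg_right
    rw [key, key, ← s2.smooth hW h2W hlW] at j1
    have hne : g.eval ((a : ℤ) ^ e) ≠ 0 := by
      obtain ⟨_, _, _, _, _, h, _⟩ := s2
      exact h
    have hsq := jac_mul_self hlW (fr_coprime hW (Int.natAbs_ne_zero.2 hne))
    have := congrArg (fun z => J(g.leadingCoeff | fr W (g.eval ((a : ℤ) ^ e)).natAbs) * z) j1
    simp only [← mul_assoc, hsq, one_mul] at this
    exact this

end Pool.Agent.FQ5e
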