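import Mathlib
import Pool.Agent.Lib.MP_5e2fbc_nt.Stable

set_option autoImplicit false

/-! Cyclotomic values: prime divisors, non-squares, and a product formula. -/

namespace Pool.Agent.FQ5e

open scoped NumberTheorySymbols Nat
open Polynomial Filter

lemma runge_step {F : ℤ[X]} {d : ℕ} (hF : F.Monic) (hd : F.natDegree = 2 * d) :
    ∀ k ≤ d, ∃ (D : ℤ) (P : ℤ[X]), 0 < D ∧ P.natDegree ≤ d ∧ P.coeff d = D ∧
      ∀ i, 2 * d - k ≤ i → (C (D ^ 2) * F - P ^ 2).coeff i = 0 := by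
  intro k
  induction k with
  | zero =>
    intro _
    refine ⟨1, X ^ d, one_pos, by simp, by simp, fun i hi => ?_⟩
    rw [← pow_mul, one_pow, C_1, one_mul, coeff_sub, coeff_X_pow]
    rcases eq_or_lt_of_le hi with h | h
    · have : i = F.natDegree := by omega
      rw [if_pos (by omega), this, hF.coeff_natDegree, sub_self]
    · rw [if_neg (by omega), coeff_eq_zero_of_natDegree_lt (by omega), sub_self]
  | succ k ih =>
    intro hk
    obtain ⟨D, P, hD, hP, hc, hE⟩ := ih (by omega)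
    set E := C (D ^ 2) * F - P ^ 2 with hEd
    set c := E.coeff (2 * d - k - 1) with hcd
    refine ⟨2 * D ^ 2, C (2 * D) * P + C c * X ^ (d - k - 1), by positivity, ?_, ?_, ?_⟩
    · refine (natDegree_add_le _ _).trans (max_le ((natDegree_C_mul_le _ _).trans hP) ?_)
      exact (natDegree_C_mul_le _ _).trans (by simp; omega)
    · rw [coeff_add, coeff_C_mul, coeff_C_mul, coeff_X_pow, if_neg (by omega), hc]; ring
    · intro i hi
      have e1 : C ((2 * D ^ 2) ^ 2) * F - (C (2 * D) * P + C c * X ^ (d - k - 1)) ^ 2 =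
          C (4 * D ^ 2) * E - C (4 * D * c) * (P * X ^ (d - k - 1)) -
            C (c ^ 2) * X ^ (2 * (d - k - 1)) := by
        rw [hEd]
        simp only [map_mul, map_pow, map_ofNat]
        ring
      rw [e1, coeff_sub, coeff_sub, coeff_C_mul, coeff_C_mul, coeff_C_mul, coeff_X_pow,
        if_neg (by omega), coeff_mul_X_pow', if_pos (by omega)]
      rcases eq_or_lt_of_le hi with h | h
      · have h1 : i = 2 * d - k - 1 := by omega
        have h2 : i - (d - k - 1) = d := by omega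
        rw [h2, hc, h1, ← hcd]; ring
      · rw [hE i (by omega), coeff_eq_zero_of_natDegree_lt (p := P) (by omega)]; ring

lemma runge {a : ℕ} (ha : 2 ≤ a) {F : ℤ[X]} {d : ℕ} (hF : F.Monic) (hd : F.natDegree = 2 * d)
    (hd0 : 0 < d) (hp : Prime F) : ∃ e1, ∀ e ≥ e1, ¬ IsSquare (F.eval ((a : ℤ) ^ e)) := by
  obtain ⟨D, P, hD, hP, hc, hE⟩ := runge_step hF hd d le_rfl
  set E := C (D ^ 2) * F - P ^ 2 with hEd
  have hP0 : P ≠ 0 := by
    rintro rfl
    simp at hc
    omega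
  have hE0 : E ≠ 0 := by
    intro h0
    have h1 : F ∣ P ^ 2 := ⟨C (D ^ 2), by rw [hEd, sub_eq_zero] at h0; rw [← h0, mul_comm]⟩
    have h2 := natDegree_le_of_dvd (hp.dvd_of_dvd_pow h1) hP0
    omega
  have hEd2 : E.natDegree ≤ d := by
    rw [natDegree_le_iff_coeff_eq_zero]
    intro i hi
    exact hE i (by omega)
  have hEc : E.coeff d = 0 := hE d (by omega)
  have key : ∀ G : ℤ[X], G.natDegree ≤ d → G.coeff d = D →
      ∃ e1, ∀ e ≥ e1, 0 < G.eval ((a : ℤ) ^ e) := by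
    intro G h1 h2
    have h3 : G.natDegree = d := natDegree_eq_of_le_of_coeff_ne_zero h1 (by rw [h2]; exact hD.ne')
    have h4 : G.leadingCoeff = D := by rw [leadingCoeff, h3, h2]
    have h5 : G ≠ 0 := by
      rw [← leadingCoeff_ne_zero, h4]; exact hD.ne'
    obtain ⟨e1, he1⟩ := sign_ev ha h5
    refine ⟨e1, fun e he => ?_⟩
    have := he1 e he
    rw [h4] at this
    exact (mul_pos_iff_of_pos_left hD).1 this
  obtain ⟨e1, h1⟩ := key (P - E) ((natDegree_sub_le _ _).trans (max_le hP hEd2))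
    (by rw [coeff_sub, hc, hEc, sub_zero])
  obtain ⟨e2, h2⟩ := key (P + E) ((natDegree_add_le _ _).trans (max_le hP hEd2))
    (by rw [coeff_add, hc, hEc, add_zero])
  obtain ⟨e3, h3⟩ := sign_ev ha hE0
  refine ⟨e1 + e2 + e3, fun e he => ?_⟩
  rintro ⟨t, ht⟩
  have a1 := h1 e (by omega)
  have a2 := h2 e (by omega)
  have a3 := h3 e (by omega)
  have a4 : E.eval ((a : ℤ) ^ e) ≠ 0 := by
    intro h0
    rw [h0] at a3
    simp at a3
  have a5 : E.eval ((a : ℤ) ^ e) = |D * t| * |D * t| - (P.eval ((a : ℤ) ^ e)) ^ 2 := by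
    rw [abs_mul_abs_self, hEd]
    simp only [eval_sub, eval_mul, eval_C, eval_pow, ht]
    ring
  rw [eval_sub] at a1
  rw [eval_add] at a2
  have a6 := abs_nonneg (D * t)
  generalize |D * t| = s at a5 a6
  generalize E.eval ((a : ℤ) ^ e) = x at a1 a2 a4 a5
  generalize P.eval ((a : ℤ) ^ e) = y at a1 a2 a5
  have hy : 0 < y := by omega
  rcases lt_trichotomy s y with h | h | h
  · have : s ≤ y - 1 := by omega
    nlinarith
  · apply a4
    rw [a5, h]; ring
  · have : y + 1 ≤ s := by omega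
    nlinarith

lemma root_of_dvd {N p : ℕ} {z : ℤ} (h : (p : ℤ) ∣ (cyclotomic N ℤ).eval z) :
    (cyclotomic N (ZMod p)).IsRoot (z : ZMod p) := by
  rw [IsRoot, ← map_cyclotomic_int, eval_intCast_map]
  simpa using (ZMod.intCast_zmod_eq_zero_iff_dvd _ _).2 h

lemma prim_dvd {N p : ℕ} [Fact p.Prime] (hN : N ≠ 0) {z : ZMod p} (h : IsPrimitiveRoot z N) :
    N ∣ p - 1 := by
  rw [h.eq_orderOf]
  exact ZMod.orderOf_dvd_card_sub_one (h.ne_zero hN)

lemma prim_of_dvd {N p : ℕ} (hp : p.Prime) (hN : ¬ p ∣ N) {z : ℤ}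
    (h : (p : ℤ) ∣ (cyclotomic N ℤ).eval z) : orderOf (z : ZMod p) = N ∧ N ∣ p - 1 := by
  have := Fact.mk hp
  have : NeZero (N : ZMod p) := ⟨fun h0 => hN ((ZMod.natCast_eq_zero_iff _ _).1 h0)⟩
  have h1 := isRoot_cyclotomic_iff.1 (root_of_dvd h)
  exact ⟨h1.eq_orderOf.symm, prim_dvd (by rintro rfl; simp at hN) h1⟩

lemma not_dvd_of_dvd {m j p : ℕ} (hm : m ≠ 0) (h3 : 3 ∣ m) (hj : m < 4 ^ j) (hp : p.Prime) {z : ℤ}
    (h : (p : ℤ) ∣ (cyclotomic (m * 4 ^ j) ℤ).eval z) : ¬ p ∣ m * 4 ^ j := by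
  intro hd
  have := Fact.mk hp
  have hn : m * 4 ^ j ≠ 0 := by positivity
  obtain ⟨k, n0, hn0, e⟩ := Nat.exists_eq_pow_mul_and_not_dvd hn p hp.ne_one
  have : NeZero (n0 : ZMod p) := ⟨fun h0 => hn0 ((ZMod.natCast_eq_zero_iff _ _).1 h0)⟩
  have h1 := root_of_dvd h
  rw [e] at h1
  have h2 := prim_dvd (by rintro rfl; simp at hn0)
    (isRoot_cyclotomic_prime_pow_mul_iff_of_charP.1 h1)
  by_cases h2p : p = 2
  · subst h2p
    have : 3 ∣ 2 ^ k * n0 := e ▸ h3.mul_right _
    have h4 : 3 ∣ n0 := (Nat.Coprime.pow_right k (by norm_num)).dvd_of_dvd_mul_left this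
    have := h4.trans h2
    norm_num at this
  · have hc : Nat.Coprime p 4 := by
      have : Nat.Coprime p (2 ^ 2) :=
        Nat.Coprime.pow_right 2 ((Nat.coprime_primes hp Nat.prime_two).2 h2p)
      simpa using this
    have h4 : 4 ^ j ∣ n0 := by
      have : 4 ^ j ∣ p ^ k * n0 := e ▸ Dvd.intro_left _ rfl
      exact (Nat.Coprime.pow j k hc.symm).dvd_of_dvd_mul_left this
    have h5 : p ∣ m := (Nat.Coprime.pow_right j hc).dvd_of_dvd_mul_right hd
    have h6 := Nat.le_of_dvd (Nat.pos_of_ne_zero hm) h5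
    have h7 := Nat.le_of_dvd (by have := hp.two_le; omega) (h4.trans h2)
    omega

lemma expand_four {m : ℕ} (h2 : 2 ∣ m) (j : ℕ) (z : ℤ) :
    (cyclotomic m ℤ).eval (z ^ 4 ^ j) = (cyclotomic (m * 4 ^ j) ℤ).eval z := by
  have key : ∀ (i : ℕ) (z : ℤ),
      (cyclotomic m ℤ).eval (z ^ 2 ^ i) = (cyclotomic (m * 2 ^ i) ℤ).eval z := by
    intro i
    induction i with
    | zero => intro z; simp
    | succ i ih =>
      intro z
      rw [show m * 2 ^ (i + 1) = m * 2 ^ i * 2 by ring,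
        ← cyclotomic_expand_eq_cyclotomic Nat.prime_two (h2.mul_right _), expand_eval, ← ih,
        ← pow_mul, pow_succ']
  have := key (2 * j) z
  rwa [pow_mul] at this

lemma prod_formula (B : ℕ) : B ≠ 0 → ∀ G : ℤ,
    (∀ p, p.Prime → p ∣ B → p % 4 = 1 ∧ J(G * (B / p : ℕ) | p) = 1) → J(G | B) = 1 := by
  induction B using induction_on_primes with
  | zero => intro h; exact absurd rfl h
  | one => intro _ G _; simp
  | prime_mul r B hr ih =>
    intro h0 G H
    have hB : B ≠ 0 := right_ne_zero_of_mul h0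
    obtain ⟨r4, h1⟩ := H r hr (Dvd.intro _ rfl)
    rw [Nat.mul_div_cancel_left _ hr.pos, jacobiSym.mul_left] at h1
    have h2 : J(G * r | B) = 1 := by
      apply ih hB
      intro p hp hpB
      obtain ⟨p4, h3⟩ := H p hp (hpB.mul_left r)
      refine ⟨p4, ?_⟩
      rw [Nat.mul_div_assoc _ hpB] at h3
      rw [← h3]
      push_cast
      rw [mul_assoc]
    have hodd : Odd B := by
      rw [← Nat.not_even_iff_odd, even_iff_two_dvd]
      intro h
      have := (H 2 Nat.prime_two (h.mul_left r)).1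
      norm_num at this
    rw [jacobiSym.mul_left, jacobiSym.quadratic_reciprocity_one_mod_four r4 hodd] at h2
    rw [jacobiSym.mul_right' _ hr.ne_zero hB]
    rcases jacobiSym.trichotomy (B : ℤ) r with h | h | h <;> rw [h] at h1 h2
    · simp at h1
    · rw [mul_one] at h1 h2
      rw [h1, h2, mul_one]
    · have e1 : J(G | r) = -1 := by linarith
      have e2 : J(G | B) = -1 := by linarith
      rw [e1, e2]; norm_num

lemma exists_class {A Q : ℕ} (hA : Odd A) (hs : ¬ IsSquare A)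
    (hc : Nat.Coprime A Q) :
    ∃ r : ℕ, r ≡ 1 [MOD Q] ∧ J((r : ℤ) | A) = -1 := by
  obtain ⟨s, b, hsb, hsq⟩ := Nat.sq_mul_squarefree A
  have hA0 : A ≠ 0 := by rintro rfl; simp at hA
  have hs1 : s ≠ 1 := by
    rintro rfl
    exact hs ⟨b, by rw [← hsb]; ring⟩
  obtain ⟨q, hq, t, rfl⟩ := Nat.exists_prime_and_dvd hs1
  have := Fact.mk hq
  have hqt : Nat.Coprime q t := (Nat.squarefree_mul_iff.1 hsq).1
  have hqA : q ∣ A := ⟨b ^ 2 * t, by rw [← hsb]; ring⟩
  have hq2 : q ≠ 2 := by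
    rintro rfl
    exact (Nat.not_even_iff_odd.2 hA) (even_iff_two_dvd.2 hqA)
  obtain ⟨x, hx⟩ := FiniteField.exists_nonsquare (F := ZMod q) (by rwa [ZMod.ringChar_zmod_n])
  have hf : Nat.Coprime (fr q A) q := fr_coprime hq.ne_zero hA0
  have hcop : Nat.Coprime q (fr q A * Q) :=
    Nat.Coprime.mul_right hf.symm (hc.coprime_dvd_left hqA)
  obtain ⟨r, r1, r2⟩ := Nat.chineseRemainder hcop x.val 1
  refine ⟨r, r2.of_dvd (Dvd.intro_left _ rfl), ?_⟩
  have hrx : (r : ZMod q) = x := by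
    rw [(ZMod.natCast_eq_natCast_iff _ _ _).2 r1, ZMod.natCast_zmod_val]
  have j1 : J((r : ℤ) | q) = -1 := by
    rw [← jacobiSym.legendreSym.to_jacobiSym, legendreSym.eq_neg_one_iff]
    simpa [hrx] using hx
  have hrq : Nat.Coprime r q := by
    rw [Nat.coprime_comm, Nat.Prime.coprime_iff_not_dvd hq]
    intro h
    apply hx
    rw [← hrx, (ZMod.natCast_eq_zero_iff _ _).2 h]
    exact IsSquare.zero
  have hrf : r ≡ 1 [MOD fr q A] := r2.of_dvd (Dvd.intro _ rfl)
  have hrA : Nat.Coprime r A := by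
    rw [← fr_mul q A]
    refine Nat.Coprime.mul_right ((hrq.pow_right A).coprime_dvd_right (Nat.gcd_dvd_right _ _)) ?_
    rw [Nat.Coprime, hrf.gcd_eq]; simp
  have ht : t ∣ fr q A := by
    have h1 : t ∣ Nat.gcd A (q ^ A) * fr q A := by
      rw [fr_mul]; exact ⟨b ^ 2 * q, by rw [← hsb]; ring⟩
    exact ((hqt.symm.pow_right A).coprime_dvd_right (Nat.gcd_dvd_right _ _)).dvd_of_dvd_mul_left h1
  have j2 : J((r : ℤ) | t) = 1 := by
    have : (r : ℤ) % t = 1 % t := by exact_mod_cast (hrf.of_dvd ht)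
    rw [jacobiSym.mod_left' this, jacobiSym.one_left]
  have hb0 : b ≠ 0 := by rintro rfl; simp at hsb; exact hA0 hsb.symm
  have ht0 : t ≠ 0 := by rintro rfl; simp at hsb; exact hA0 hsb.symm
  have j3 : J((r : ℤ) | b) ^ 2 = 1 := by
    apply jacobiSym.sq_one
    have : Nat.Coprime r b := hrA.coprime_dvd_right ⟨b * (q * t), by rw [← hsb]; ring⟩
    simpa using this
  rw [← hsb, jacobiSym.mul_right' _ (pow_ne_zero 2 hb0) (mul_ne_zero hq.ne_zero ht0),
    jacobiSym.pow_right, jacobiSym.mul_right' _ hq.ne_zero ht0, j1, j2, j3]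
  norm_num

lemma jac_div {p : ℕ} (h8 : p % 8 = 1) (d : ℕ) : d ∣ p - 1 → d ≠ 0 → J((d : ℤ) | p) = 1 := by
  have hodd : Odd p := Nat.odd_iff.2 (by omega)
  induction d using induction_on_primes with
  | zero => intro _ h; exact absurd rfl h
  | one => intro _ _; simp
  | prime_mul r d hr ih =>
    intro h h0
    have h1 : 4 * r ∣ p - 1 := by
      by_cases h2 : r = 2
      · subst h2; omega
      · have hc : Nat.Coprime (2 ^ 2) r :=
          Nat.Coprime.pow_left 2 ((Nat.coprime_primes Nat.prime_two hr).2 (Ne.symm h2))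
        exact Nat.Coprime.mul_dvd_of_dvd_of_dvd hc (by omega) ((Dvd.intro _ rfl).trans h)
    have h2 : p % (4 * r) = 1 := by
      have h3 : 1 ≡ p [MOD 4 * r] := (Nat.modEq_iff_dvd' (by omega)).2 h1
      have := hr.two_le
      rw [← h3]
      exact Nat.mod_eq_of_lt (by omega)
    push_cast
    rw [jacobiSym.mul_left, ih ((Dvd.intro_left _ rfl).trans h) (right_ne_zero_of_mul h0),
      jacobiSym.mod_right' r hodd, h2, jacobiSym.one_right, mul_one]

end Pool.Agent.FQ5e
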