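import Mathlib
import Pool.Agent.Lib.MP_5e2fbc_nt.Prim
import Pool.Agent.Shared.PNTAP

set_option autoImplicit false

/-! Density of primes with a prescribed sign, and divergence of reciprocals in a class. -/

namespace Pool.Agent.FQ5e

open scoped NumberTheorySymbols Nat
open Filter Topology Pool.Agent.Shared.PNTAP

open scoped Classical in
lemma dens {Q L N : ℕ} (hQ : Q ∣ L) (hL : L ≠ 0) (hN : Odd N) (hs : ¬ IsSquare N)
    (hc : Nat.Coprime N L) (ε : ℕ → ℤ)
    (hper : ∀ c d, 1 ≤ c → 1 ≤ d → c ≡ d [MOD L] → ε c = ε d)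
    (hε : ∀ c, 1 ≤ c → Nat.Coprime c L → ε c = 1 ∨ ε c = -1) :
    ∀ᶠ y : ℝ in atTop, y / (3 * Q.totient) ≤
      ∑ l ∈ (Finset.Icc 1 ⌊y⌋₊).filter
        (fun l : ℕ => l.Prime ∧ l ≡ 1 [MOD Q] ∧ J((l : ℤ) | N) * ε l = 1), Real.log l := by
  have hN0 : N ≠ 0 := by rintro rfl; simp at hN
  have hN1 : N ≠ 1 := by rintro rfl; simp at hs
  set T := L * N with hT
  have hT1 : 1 < T := by
    have : 1 * 2 ≤ L * N := Nat.mul_le_mul (by omega) (by omega)
    omega
  have : NeZero T := ⟨by omega⟩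
  have hQ0 : Q ≠ 0 := by rintro rfl; exact hL (Nat.eq_zero_of_zero_dvd hQ)
  have : NeZero Q := ⟨hQ0⟩
  have hQT : Q ∣ T := hQ.mul_right _
  obtain ⟨r, hr1, hrJ⟩ := exists_class hN hs hc
  have hrN : Nat.Coprime r N := by
    by_contra h
    have := (jacobiSym.eq_zero_iff (a := (r : ℤ)) (b := N)).2 ⟨hN0, by simpa using h⟩
    rw [this] at hrJ
    norm_num at hrJ
  have hrL : Nat.Coprime r L := by
    rw [Nat.Coprime, hr1.gcd_eq]; simp
  set ρ : (ZMod T)ˣ := ZMod.unitOfCoprime r (hrL.mul_right hrN) with hρ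
  set v : (ZMod T)ˣ → ℕ := fun c => (c : ZMod T).val with hv
  have hvc : ∀ c, Nat.Coprime (v c) T := fun c => ZMod.val_coe_unit_coprime c
  have hv1 : ∀ c, 1 ≤ v c := by
    intro c
    by_contra h
    have h0 : v c = 0 := by omega
    have := hvc c
    rw [h0] at this
    simp at this
    omega
  have hvm : ∀ c, v (ρ * c) ≡ r * v c [MOD T] := by
    intro c
    rw [← ZMod.natCast_eq_natCast_iff]
    simp [hv, hρ]
  set Hit := Finset.univ.filter
    (fun c : (ZMod T)ˣ => v c ≡ 1 [MOD Q] ∧ J((v c : ℤ) | N) * ε (v c) = 1) with hHit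
  set Anti := Finset.univ.filter
    (fun c : (ZMod T)ˣ => v c ≡ 1 [MOD Q] ∧ J((v c : ℤ) | N) * ε (v c) = -1) with hAnti
  have c1 : Anti.card ≤ Hit.card := by
    apply Finset.card_le_card_of_injOn (fun c => ρ * c)
    · intro c hc
      simp only [hAnti, hHit, Finset.coe_filter, Finset.mem_univ, true_and, Set.mem_ofPred_eq] at *
      have m1 : v (ρ * c) ≡ v c [MOD L] := by
        have := ((hvm c).of_dvd (Dvd.intro _ rfl : L ∣ T)).trans (hr1.mul_right (v c))
        rwa [one_mul] at this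
      have m2 : J((v (ρ * c) : ℤ) | N) = J((r : ℤ) * v c | N) := by
        apply jacobiSym.mod_left'
        exact_mod_cast (hvm c).of_dvd (Dvd.intro_left _ rfl : N ∣ T)
      refine ⟨(m1.of_dvd hQ).trans hc.1, ?_⟩
      rw [m2, jacobiSym.mul_left, hrJ, hper _ _ (hv1 _) (hv1 _) m1, mul_assoc, hc.2]
      norm_num
    · intro c _ d _ h
      exact mul_left_cancel h
  have c2 : Nat.card (ZMod.unitsMap hQT).ker ≤ Hit.card + Anti.card := by
    rw [Nat.card_eq_fintype_card, Fintype.card_subtype]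
    refine (Finset.card_le_card ?_).trans (Finset.card_union_le _ _)
    intro c hc
    simp only [Finset.mem_filter, Finset.mem_univ, true_and, MonoidHom.mem_ker] at hc
    have h1 : v c ≡ 1 [MOD Q] := by
      rw [← ZMod.natCast_eq_natCast_iff]
      have := congrArg Units.val hc
      rw [ZMod.unitsMap_val, ZMod.cast_eq_val] at this
      simpa [hv] using this
    have h2 := hε _ (hv1 c) ((hvc c).coprime_dvd_right (Dvd.intro _ rfl))
    have h3 : J((v c : ℤ) | N) = 1 ∨ J((v c : ℤ) | N) = -1 := jacobiSym.eq_one_or_neg_one (by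
      simpa using (hvc c).coprime_dvd_right (Dvd.intro_left _ rfl : N ∣ T))
    simp only [hHit, hAnti, Finset.mem_union, Finset.mem_filter, Finset.mem_univ, true_and, h1]
    rcases h2 with h2 | h2 <;> rcases h3 with h3 | h3 <;> simp [h2, h3]
  have c3 : T.totient ≤ Nat.card (ZMod.unitsMap hQT).ker * Q.totient := by
    have h1 := (ZMod.unitsMap hQT).ker.card_mul_index
    rw [Subgroup.index_ker, Nat.card_eq_fintype_card (α := (ZMod T)ˣ),
      ZMod.card_units_eq_totient] at h1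
    rw [← h1]
    apply Nat.mul_le_mul_left
    have := Subgroup.card_le_card_group (ZMod.unitsMap hQT).range
    rwa [Nat.card_eq_fintype_card (α := (ZMod Q)ˣ), ZMod.card_units_eq_totient] at this
  have c4 : T.totient ≤ 2 * Hit.card * Q.totient :=
    c3.trans (Nat.mul_le_mul_right _ (by omega))
  have hφT : (0 : ℝ) < T.totient := by exact_mod_cast Nat.totient_pos.2 (by omega)
  have hφQ : (0 : ℝ) < Q.totient := by exact_mod_cast Nat.totient_pos.2 (by omega)
  have t1 : Tendsto (fun y : ℝ => ∑ c ∈ Hit, thetaAP (c : ZMod T) y / y) atTop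
      (𝓝 (∑ c ∈ Hit, (T.totient : ℝ)⁻¹)) :=
    tendsto_finsetSum _ fun c _ => theta_ap c.isUnit
  have h5 : 1 / (3 * (Q.totient : ℝ)) < ∑ c ∈ Hit, (T.totient : ℝ)⁻¹ := by
    rw [Finset.sum_const, nsmul_eq_mul, ← div_eq_mul_inv, div_lt_div_iff₀ (by positivity) hφT]
    have : (T.totient : ℝ) ≤ 2 * Hit.card * Q.totient := by exact_mod_cast c4
    nlinarith
  filter_upwards [t1.eventually (lt_mem_nhds h5), eventually_gt_atTop 0] with y h1 hy
  rw [← Finset.sum_div, lt_div_iff₀ hy] at h1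
  have e1 : y / (3 * (Q.totient : ℝ)) = 1 / (3 * (Q.totient : ℝ)) * y := by ring
  rw [e1]
  refine h1.le.trans ?_
  simp only [thetaAP]
  rw [← Finset.sum_biUnion]
  · apply Finset.sum_le_sum_of_subset_of_nonneg
    · intro l hl
      simp only [Finset.mem_biUnion, Finset.mem_filter, hHit, Finset.mem_univ, true_and] at hl ⊢
      obtain ⟨c, ⟨g1, g2⟩, g3, g4, g5⟩ := hl
      have m0 : l ≡ v c [MOD T] := by
        rw [← ZMod.natCast_eq_natCast_iff, g5]
        simp [hv]
      have m2 : J((l : ℤ) | N) = J((v c : ℤ) | N) := by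
        apply jacobiSym.mod_left'
        exact_mod_cast m0.of_dvd (Dvd.intro_left _ rfl : N ∣ T)
      refine ⟨g3, g4, (m0.of_dvd hQT).trans g1, ?_⟩
      rw [m2, hper _ _ g4.one_le (hv1 c) (m0.of_dvd (Dvd.intro _ rfl)), g2]
    · intro l _ _
      exact Real.log_natCast_nonneg l
  · intro c _ d _ hcd
    rw [Function.onFun, Finset.disjoint_left]
    intro l h1 h2
    simp only [Finset.mem_filter] at h1 h2
    exact hcd (Units.ext (h1.2.2.symm.trans h2.2.2))

lemma recip_div {Q r : ℕ} (hQ : 0 < Q) (hr : Nat.Coprime r Q) (C : ℝ) :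
    ∃ S : Finset ℕ, (∀ k ∈ S, k.Prime ∧ k ≡ r [MOD Q]) ∧ C ≤ ∑ k ∈ S, (1 : ℝ) / k := by
  have : NeZero Q := ⟨hQ.ne'⟩
  have hu : IsUnit (r : ZMod Q) := (ZMod.isUnit_iff_coprime r Q).2 hr
  have hφ : (0 : ℝ) < Q.totient := by exact_mod_cast Nat.totient_pos.2 hQ
  set δ : ℝ := (Q.totient : ℝ)⁻¹ with hδ
  have hδ0 : 0 < δ := inv_pos.2 hφ
  have t1 := (theta_ap_mul hu (c := 2) two_pos).sub (theta_ap hu)
  have t2 := (t1.comp (tendsto_pow_atTop_atTop_of_one_lt (r := (2 : ℝ)) one_lt_two)).eventually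
    (lt_mem_nhds (show δ / 2 < 2 * δ - δ by linarith))
  obtain ⟨i0, hi0⟩ := eventually_atTop.1 t2
  set S : ℕ → Finset ℕ := fun i =>
    (Finset.Icc 1 (2 ^ i)).filter (fun p : ℕ => p.Prime ∧ (p : ZMod Q) = r) with hS
  have hθ : ∀ i : ℕ, thetaAP (r : ZMod Q) ((2 : ℝ) ^ i) = ∑ p ∈ S i, Real.log p := by
    intro i
    rw [thetaAP, show ((2 : ℝ) ^ i) = ((2 ^ i : ℕ) : ℝ) by push_cast; rfl, Nat.floor_natCast]
  have hsub : ∀ i, S i ⊆ S (i + 1) := by
    intro i
    apply Finset.filter_subset_filter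
    apply Finset.Icc_subset_Icc_right
    exact Nat.pow_le_pow_right two_pos (Nat.le_succ i)
  have step : ∀ i ≥ i0, ∑ p ∈ S i, (1 : ℝ) / p + δ / 4 * (1 / ((i : ℝ) + 1)) ≤
      ∑ p ∈ S (i + 1), (1 : ℝ) / p := by
    intro i hi
    have h1 := hi0 i hi
    simp only [Function.comp] at h1
    have h2 : (0 : ℝ) < 2 ^ i := by positivity
    rw [← pow_succ', hθ, hθ, ← sub_div, lt_div_iff₀ h2, ← Finset.sum_sdiff (hsub i),
      add_sub_cancel_right] at h1
    rw [← Finset.sum_sdiff (hsub i), add_comm]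
    apply add_le_add_left
    have h3 : ∑ p ∈ S (i + 1) \ S i, Real.log p ≤
        ∑ p ∈ S (i + 1) \ S i, (2 * 2 ^ i * ((i : ℝ) + 1)) * (1 / p) := by
      apply Finset.sum_le_sum
      intro p hp
      have hp1 := (Finset.mem_sdiff.1 hp).1
      simp only [hS, Finset.mem_filter, Finset.mem_Icc] at hp1
      have hp0 : (0 : ℝ) < p := by exact_mod_cast hp1.1.1
      have hp2 : (p : ℝ) ≤ 2 * 2 ^ i := by
        rw [← pow_succ']; exact_mod_cast hp1.1.2
      have hp3 : Real.log p ≤ (i : ℝ) + 1 := by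
        refine (Real.log_le_log hp0 hp2).trans ?_
        rw [← pow_succ', Real.log_pow]
        push_cast
        have := Real.log_two_lt_d9
        nlinarith [Real.log_pos (show (1 : ℝ) < 2 by norm_num), (Nat.cast_nonneg i : (0 : ℝ) ≤ i)]
      rw [mul_one_div, le_div_iff₀ hp0]
      nlinarith [Real.log_natCast_nonneg p]
    rw [← Finset.mul_sum] at h3
    rw [mul_one_div, div_le_iff₀ (by positivity)]
    nlinarith
  have ind : ∀ t : ℕ, δ / 4 * (∑ i ∈ Finset.range (i0 + t), 1 / ((i : ℝ) + 1) -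
      ∑ i ∈ Finset.range i0, 1 / ((i : ℝ) + 1)) ≤ ∑ p ∈ S (i0 + t), (1 : ℝ) / p := by
    intro t
    induction t with
    | zero => simp only [add_zero, sub_self, mul_zero]; positivity
    | succ t ih =>
      have := step (i0 + t) (Nat.le_add_right _ _)
      rw [← add_assoc, Finset.sum_range_succ]
      nlinarith
  have t3 := (Real.tendsto_sum_range_one_div_nat_succ_atTop.comp
    (tendsto_add_atTop_nat i0)).eventually_ge_atTop
      (C / (δ / 4) + ∑ i ∈ Finset.range i0, 1 / ((i : ℝ) + 1))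
  obtain ⟨t, ht⟩ := t3.exists
  simp only [Function.comp] at ht
  refine ⟨S (i0 + t), fun k hk => ?_, le_trans ?_ (ind t)⟩
  · simp only [hS, Finset.mem_filter] at hk
    exact ⟨hk.2.1, (ZMod.natCast_eq_natCast_iff _ _ _).1 hk.2.2⟩
  · rw [add_comm t i0] at ht
    have h4 : C = δ / 4 * (C / (δ / 4)) := by field_simp
    rw [h4]
    apply mul_le_mul_of_nonneg_left _ (by positivity)
    linarith

end Pool.Agent.FQ5e
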