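import Mathlib
import Pool.Agent.Lib.MP_5e2fbc_nt.Prim

set_option autoImplicit false

/-! For primes `l` in a progression, `a ^ (n * l) - 1` has a primitive prime divisor whose
quotient is an even power of the prime times a non-residue. -/

namespace Pool.Agent.FQ5e

open scoped NumberTheorySymbols Nat
open Polynomial Filter

lemma bezout {m : ℕ} (hm : m ≠ 0) {F R : ℤ[X]} (h : (X : ℤ[X]) ^ m - 1 = F * R) :
    X * derivative F * R + (X * derivative R - C (m : ℤ) * R) * F = C (m : ℤ) := by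
  have h1 := congrArg derivative h
  rw [derivative_sub, derivative_one, sub_zero, derivative_X_pow, derivative_mul] at h1
  have h2 : (X : ℤ[X]) * X ^ (m - 1) = X ^ m := by
    rw [← pow_succ', Nat.sub_add_cancel (Nat.pos_of_ne_zero hm)]
  linear_combination (-X) * h1 + C (m : ℤ) * h2 + C (m : ℤ) * h

lemma one_mod_four (A : ℕ) : A ≠ 0 → (∀ p, p.Prime → p ∣ A → p % 4 = 1) → A % 4 = 1 := by
  induction A using induction_on_primes with
  | zero => intro h; exact absurd rfl h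
  | one => intro _ _; rfl
  | prime_mul r B hr ih =>
    intro h0 H
    rw [Nat.mul_mod, H r hr (Dvd.intro _ rfl),
      ih (right_ne_zero_of_mul h0) (fun p hp h => H p hp (h.mul_left r))]

lemma geom_mod {z A : ℤ} (h : A ∣ z - 1) (l : ℕ) : A ∣ (∑ i ∈ Finset.range l, z ^ i) - l := by
  induction l with
  | zero => simp
  | succ l ih =>
    rw [Finset.sum_range_succ]
    have h1 : A ∣ z ^ l - 1 := h.trans (by simpa using sub_dvd_pow_sub_pow z 1 l)
    have := dvd_add ih h1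
    have e : (∑ i ∈ Finset.range l, z ^ i) - l + (z ^ l - 1) + 0 =
        (∑ i ∈ Finset.range l, z ^ i) + z ^ l - ((l + 1 : ℕ) : ℤ) := by push_cast; ring
    rw [← e, add_zero]
    exact this

lemma exists_neg {D : ℕ} {G : ℤ} (hD : D ≠ 0) (hJ : J(G | D) = -1)
    (H : ∀ p, p.Prime → p ∣ D → p % 4 = 1) :
    ∃ p : ℕ, p.Prime ∧ p ∣ D ∧ ∃ i t : ℕ, D = p * (p ^ (2 * i) * t) ∧ J(G * t | p) = -1 := by
  obtain ⟨s, b, hsb, hsq⟩ := Nat.sq_mul_squarefree D
  have hb0 : b ≠ 0 := by rintro rfl; simp at hsb; exact hD hsb.symm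
  have hs0 : s ≠ 0 := hsq.ne_zero
  have hG : Nat.Coprime G.natAbs D := by
    by_contra h
    have := (jacobiSym.eq_zero_iff (a := G) (b := D)).2 ⟨hD, by simpa [Int.gcd] using h⟩
    rw [this] at hJ
    norm_num at hJ
  have hsD : s ∣ D := Dvd.intro_left _ hsb
  have j1 : J(G | b) ^ 2 = 1 := by
    apply jacobiSym.sq_one
    have : Nat.Coprime G.natAbs b := hG.coprime_dvd_right ⟨b * s, by rw [← hsb]; ring⟩
    simpa [Int.gcd] using this
  rw [← hsb, jacobiSym.mul_right' _ (pow_ne_zero 2 hb0) hs0, jacobiSym.pow_right, j1,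
    one_mul] at hJ
  by_contra hcon
  push Not at hcon
  have := prod_formula s hs0 G (fun p hp hps => ⟨H p hp (hps.trans hsD), by
    obtain ⟨u, rfl⟩ := hps
    obtain ⟨i, c, hc, rfl⟩ := Nat.exists_eq_pow_mul_and_not_dvd hb0 p hp.ne_one
    rw [Nat.mul_div_cancel_left _ hp.pos]
    have hpu : Nat.Coprime p u := (Nat.squarefree_mul_iff.1 hsq).1
    have hpc : Nat.Coprime p c := (Nat.Prime.coprime_iff_not_dvd hp).2 hc
    have hpD : p ∣ D := (Dvd.intro _ rfl).trans hsD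
    have h1 := hcon p hp hpD i (c ^ 2 * u) (by rw [← hsb]; ring)
    have h2 : J((c : ℤ) ^ 2 | p) = 1 := jacobiSym.sq_one' (by simpa using hpc.symm)
    have e : G * ((c ^ 2 * u : ℕ) : ℤ) = (c : ℤ) ^ 2 * (G * u) := by push_cast; ring
    rw [e, jacobiSym.mul_left, h2, one_mul] at h1
    refine (jacobiSym.eq_one_or_neg_one ?_).resolve_right h1
    have : Nat.Coprime (G.natAbs * u) p := Nat.Coprime.mul_left (hG.coprime_dvd_right hpD) hpu.symm
    simpa [Int.gcd, Int.natAbs_mul] using this⟩)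
  rw [this] at hJ
  norm_num at hJ

lemma jac_ne_of_dvd {x : ℤ} {B d : ℕ} (hB : B ≠ 0) (hd : d ∣ B) (h : J(x | B) ≠ 0) :
    J(x | d) ≠ 0 := by
  obtain ⟨c, rfl⟩ := hd
  rw [jacobiSym.mul_right' _ (left_ne_zero_of_mul hB) (right_ne_zero_of_mul hB)] at h
  exact left_ne_zero_of_mul h

lemma jac_zero_of_dvd {p A : ℕ} (hp : p.Prime) (hA : A ≠ 0) (h : p ∣ A) : J((p : ℤ) | A) = 0 := by
  rw [jacobiSym.eq_zero_iff]
  refine ⟨hA, ?_⟩
  rw [Int.gcd_natCast_natCast, Nat.gcd_eq_left h]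
  exact hp.ne_one

lemma step {y S : ℤ} {R : ℤ[X]} {M l B T : ℕ} (hl : 1 ≤ l) (hM : M ∣ l - 1) (hB : B ≠ 0)
    (hT : T ≠ 0) (h1 : y ^ M - 1 = B * R.eval y)
    (h2 : (y ^ l) ^ M - 1 = ((T * B : ℕ) : ℤ) * R.eval (y ^ l))
    (hS : S ≠ 0) (j1 : J(R.eval y | B) = S) (j2 : J(R.eval (y ^ l) | T * B) = S) :
    (∀ d, d ∣ B → J(R.eval (y ^ l) | d) = J(R.eval y | d) ∧ J((T : ℤ) | d) = J((l : ℤ) | d)) ∧
      J(R.eval (y ^ l) | T) = 1 := by
  have hAz : (B : ℤ) ∣ y ^ M - 1 := ⟨_, h1⟩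
  have hcong : (B : ℤ) ∣ R.eval (y ^ l) - R.eval y := by
    refine Dvd.dvd.trans ?_ (sub_dvd_eval_sub _ y R)
    obtain ⟨t, ht⟩ := hM
    have e1 : y ^ l - y = y * ((y ^ M) ^ t - 1) := by
      rw [← pow_mul, ← ht, mul_sub, ← pow_succ', Nat.sub_add_cancel hl, mul_one]
    rw [e1]
    exact (hAz.trans (by simpa using sub_dvd_pow_sub_pow (y ^ M) 1 t)).mul_left _
  have hJ1 : ∀ d, d ∣ B → J(R.eval (y ^ l) | d) = J(R.eval y | d) := fun d hd =>
    jacobiSym.mod_left' (Int.ModEq.symm (Int.modEq_iff_dvd.2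
      ((Int.natCast_dvd_natCast.2 hd).trans hcong)))
  refine ⟨fun d hd => ⟨hJ1 d hd, ?_⟩, ?_⟩
  · have h3 : (B : ℤ) * (T * R.eval (y ^ l)) =
        B * (R.eval y * ∑ i ∈ Finset.range l, (y ^ M) ^ i) := by
      have h4 := mul_geom_sum (y ^ M) l
      rw [← pow_mul y M l, mul_comm M l, pow_mul y l M, h2, h1] at h4
      push_cast at h4
      linear_combination -h4
    have h5 := mul_left_cancel₀ (by exact_mod_cast hB : (B : ℤ) ≠ 0) h3
    have h6 : J(∑ i ∈ Finset.range l, (y ^ M) ^ i | d) = J((l : ℤ) | d) :=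
      jacobiSym.mod_left' (Int.ModEq.symm (Int.modEq_iff_dvd.2
        ((Int.natCast_dvd_natCast.2 hd).trans (geom_mod hAz l))))
    have h7 := congrArg (fun z => J(z | d)) h5
    simp only [jacobiSym.mul_left, h6, hJ1 d hd] at h7
    exact mul_right_cancel₀ (jac_ne_of_dvd hB hd (j1 ▸ hS)) (by rw [h7]; ring)
  · rw [jacobiSym.mul_right' _ hT hB, hJ1 B dvd_rfl, j1] at j2
    exact mul_right_cancel₀ hS (by rw [one_mul]; exact j2)

theorem setup {a m : ℕ} (ha : 2 ≤ a) (hm : 0 < m) :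
    ∃ (n Q M e : ℕ) (R : ℤ[X]) (B : ℕ → ℕ) (S : ℤ), 0 < n ∧ 0 < Q ∧ n = e * M ∧ M ∣ Q ∧
      8 * m ∣ n ∧ S ≠ 0 ∧ ¬ IsSquare (B 1) ∧ (∀ l : ℕ, l.Prime → l ≡ 1 [MOD Q] → ¬ l ∣ n) ∧
      (∀ h, 1 ≤ h → (cyclotomic n ℤ).eval ((a : ℤ) ^ h) = B h ∧ B h ≠ 0 ∧ Nat.Coprime (B h) Q ∧
        (((a : ℤ) ^ e) ^ h) ^ M - 1 = B h * R.eval (((a : ℤ) ^ e) ^ h) ∧
        (h ≡ 1 [MOD Q] → J(R.eval (((a : ℤ) ^ e) ^ h) | B h) = S)) ∧
      ∀ (z : ℤ) (p : ℕ), p.Prime → (p : ℤ) ∣ (cyclotomic n ℤ).eval z → ¬ p ∣ n := by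
  set M := 24 * m with hM
  have hM0 : M ≠ 0 := by omega
  obtain ⟨R, hR⟩ := cyclotomic.dvd_X_pow_sub_one M ℤ
  set F := cyclotomic M ℤ with hF
  have hbez := bezout hM0 hR
  obtain ⟨W0, hW0, HW⟩ := js_main ha _ F rfl (cyclotomic_ne_zero M ℤ) _ R rfl _ _ (M : ℤ)
    (by exact_mod_cast hM0) hbez
  set W := W0 * (2 * a) * M with hWd
  have hW : W ≠ 0 := by positivity
  have hMW : M ∣ W := Dvd.intro_left _ rfl
  obtain ⟨e0, He⟩ := HW W ⟨2 * a * M, by rw [hWd]; ring⟩ ⟨W0 * M, by rw [hWd]; ring⟩ hW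
  obtain ⟨d, hd⟩ := Nat.totient_even (show 2 < M by omega)
  have hd0 : 0 < d := by
    have := Nat.totient_pos.2 (Nat.pos_of_ne_zero hM0)
    omega
  obtain ⟨e1, He1⟩ := runge ha (cyclotomic.monic M ℤ) (d := d)
    (by rw [natDegree_cyclotomic]; omega) hd0
    (cyclotomic.irreducible (Nat.pos_of_ne_zero hM0)).prime
  set j := e0 + e1 + W with hj
  have hjlt : j < 4 ^ j := Nat.lt_pow_self (by norm_num)
  set e := 4 ^ j with he
  have hMle : M ≤ W := Nat.le_of_dvd (Nat.pos_of_ne_zero hW) hMW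
  set n := M * e with hn
  have hn0 : 0 < n := by positivity
  have hexp : ∀ z : ℤ, F.eval (z ^ e) = (cyclotomic n ℤ).eval z :=
    fun z => expand_four (by omega) j z
  have hprime : ∀ (z : ℤ) (p : ℕ), p.Prime → (p : ℤ) ∣ (cyclotomic n ℤ).eval z → ¬ p ∣ n :=
    fun z p hp h => not_dvd_of_dvd hM0 (by omega) (by omega) hp h
  have hWf : W ∣ W ! := Nat.dvd_factorial (Nat.pos_of_ne_zero hW) le_rfl
  have ha1 : (1 : ℤ) < a := by exact_mod_cast ha
  set B : ℕ → ℕ := fun h => ((cyclotomic n ℤ).eval ((a : ℤ) ^ h)).natAbs with hB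
  have hval : ∀ h, 1 ≤ h → (cyclotomic n ℤ).eval ((a : ℤ) ^ h) = B h ∧ B h ≠ 0 ∧
      Nat.Coprime (B h) (W !) ∧ F.eval (((a : ℤ) ^ e) ^ h) = B h := by
    intro h hh
    have h1 := cyclotomic_pos' n (one_lt_pow₀ ha1 (by omega : h ≠ 0))
    have h0 : (cyclotomic n ℤ).eval ((a : ℤ) ^ h) = B h := by simp only [hB]; omega
    refine ⟨h0, by simp only [hB]; omega, ?_, by rw [pow_right_comm, hexp, h0]⟩
    apply Nat.Coprime.symm
    apply Nat.coprime_of_dvd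
    intro p hp h2 h3
    have h4 := Int.natCast_dvd.2 h3
    have h5 := Nat.le_of_dvd (by have := hp.two_le; omega) (prim_of_dvd hp (hprime _ p hp h4) h4).2
    have h6 : e ≤ n := Nat.le_mul_of_pos_left _ (Nat.pos_of_ne_zero hM0)
    have := (hp.dvd_factorial).1 h2
    omega
  obtain ⟨K, HK⟩ := He e (by omega)
  have hfr : ∀ T : ℕ, T ≠ 0 → Nat.Coprime T (W !) → fr W T = T := by
    intro T h0 hc
    have := fr_eq (k := 0) (u := 1) hW (by simp) (hc.coprime_dvd_right hWf) h0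
    simpa using this
  have hWQ : W ∣ (W !) ^ (K + 1) := hWf.trans (dvd_pow_self _ (Nat.succ_ne_zero K))
  obtain ⟨-, b1, b2, b3⟩ := hval 1 le_rfl
  rw [pow_one] at b3
  refine ⟨n, (W !) ^ (K + 1), M, e, R, B, J(R.eval ((a : ℤ) ^ e) | B 1), hn0,
    pow_pos (Nat.factorial_pos W) _, by rw [hn, mul_comm], hMW.trans hWQ,
    (show 8 * m ∣ M from ⟨3, by omega⟩).mul_right _, ?_, ?_, ?_, ?_, hprime⟩
  · apply jacobiSym.ne_zero
    have h1 := congrArg (eval ((a : ℤ) ^ e)) hbez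
    simp only [eval_add, eval_mul, eval_C, b3] at h1
    have h2 : ((Int.gcd (R.eval ((a : ℤ) ^ e)) (B 1) : ℕ) : ℤ) ∣ (M : ℤ) := by
      rw [← h1]
      exact dvd_add ((Int.gcd_dvd_left _ _).mul_left _) ((Int.gcd_dvd_right _ _).mul_left _)
    have h3 : Int.gcd (R.eval ((a : ℤ) ^ e)) (B 1) ∣ B 1 := by
      exact_mod_cast Int.gcd_dvd_right (R.eval ((a : ℤ) ^ e)) (B 1 : ℤ)
    exact Nat.eq_one_of_dvd_coprimes (b2.coprime_dvd_right (hMW.trans hWf)) h3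
      (by exact_mod_cast h2)
  · intro h
    apply He1 e (by omega)
    rw [b3]
    exact Int.isSquare_natCast_iff.2 h
  · intro l hl hl1 h
    have hlW : Nat.Coprime l W := by
      have h1 : l ≡ 1 [MOD W] := hl1.of_dvd hWQ
      rw [Nat.Coprime, h1.gcd_eq]; simp
    rcases (hl.dvd_mul).1 h with h | h
    · exact hl.ne_one (Nat.eq_one_of_dvd_coprimes hlW dvd_rfl (h.trans hMW))
    · have h2 : l ∣ 4 := hl.dvd_of_dvd_pow h
      have h3 : 4 ∣ W := (show 4 ∣ M by omega).trans hMW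
      exact hl.ne_one (Nat.eq_one_of_dvd_coprimes hlW dvd_rfl (h2.trans h3))
  · intro h hh
    obtain ⟨c0, c1, c2, c3⟩ := hval h hh
    refine ⟨c0, c1, c2.pow_right _, ?_, fun h1 => ?_⟩
    · have := congrArg (eval (((a : ℤ) ^ e) ^ h)) hR
      simpa [c3] using this
    · have hld : (W !) ^ (K + 1) ∣ h - 1 := (Nat.modEq_iff_dvd' hh).1 h1.symm
      have hstab := HK (e * h) (Nat.le_mul_of_pos_right _ hh) (by
        rw [← Nat.mul_sub_one]
        exact ((pow_dvd_pow _ (Nat.le_succ K)).trans hld).mul_left _)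
      simp only [pow_mul, b3, c3, Int.natAbs_natCast, hfr _ b1 b2, hfr _ c1 c2] at hstab
      exact hstab.symm

lemma fermat_dvd {p : ℕ} (hp : p.Prime) (z : ℤ) (F : ℤ[X]) (h : (p : ℤ) ∣ F.eval (z ^ p)) :
    (p : ℤ) ∣ F.eval z := by
  have := Fact.mk hp
  have h7 : (p : ℤ) ∣ z ^ p - z := by
    rw [← ZMod.intCast_zmod_eq_zero_iff_dvd]
    push_cast
    rw [ZMod.pow_card, sub_self]
  have h8 := dvd_sub h (h7.trans (sub_dvd_eval_sub _ _ F))
  rwa [sub_sub_cancel] at h8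

lemma cyc_nat {a : ℕ} (ha : 2 ≤ a) (N : ℕ) :
    ∃ D : ℕ, D ≠ 0 ∧ (cyclotomic N ℤ).eval (a : ℤ) = D := by
  have h := cyclotomic_pos' N (show (1 : ℤ) < a by exact_mod_cast ha)
  exact ⟨((cyclotomic N ℤ).eval (a : ℤ)).natAbs, by omega, by omega⟩

lemma cyc_split {n l : ℕ} (hl : l.Prime) (h : ¬ l ∣ n) (z : ℤ) :
    (cyclotomic n ℤ).eval (z ^ l) = (cyclotomic (n * l) ℤ).eval z * (cyclotomic n ℤ).eval z := by
  rw [← eval_mul, ← cyclotomic_expand_eq_cyclotomic_mul hl h, expand_eval]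

theorem core {a m : ℕ} (ha : 2 ≤ a) (hm : 0 < m) :
    ∃ n Q T r A : ℕ, 0 < n ∧ 0 < Q ∧ 0 < T ∧ Nat.Coprime r T ∧
      ∀ k : ℕ, k.Prime → k ≡ r [MOD T] → ∃ (N : ℕ) (ε : ℕ → ℤ), Odd N ∧ ¬ IsSquare N ∧
        Nat.Coprime N (Q * (k - 1)) ∧
        (∀ c d, 1 ≤ c → 1 ≤ d → c ≡ d [MOD Q * (k - 1)] → ε c = ε d) ∧
        (∀ c, 1 ≤ c → Nat.Coprime c (Q * (k - 1)) → ε c = 1 ∨ ε c = -1) ∧
        ∀ l : ℕ, l.Prime → A < l → k < l → l ≡ 1 [MOD Q] → J((l : ℤ) | N) * ε l = 1 →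
          ∃ p : ℕ, p.Prime ∧ p ≡ 1 [MOD m] ∧ p % 8 = 1 ∧ orderOf (a : ZMod p) = n * k * l ∧
            ∃ i t : ℕ, (a ^ (n * k * l) - 1) / p = p ^ (2 * i) * t ∧ J((t : ℤ) | p) = -1 := by
  obtain ⟨n, Q, M, e, R, B, S, hn0, hQ0, hne, hMQ, h8n, hS, hns, hln, HB, hprime⟩ := setup ha hm
  have hbig : ∀ (z : ℤ) (p : ℕ), p.Prime → (p : ℤ) ∣ (cyclotomic n ℤ).eval z →
      p % 8 = 1 ∧ p ≡ 1 [MOD m] := by
    intro z p hp h
    have h2 := hp.two_le
    have h4 := h8n.trans (prim_of_dvd hp (hprime z p hp h) h).2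
    have h5 : 8 ∣ p - 1 := (Dvd.intro _ rfl).trans h4
    exact ⟨by omega, ((Nat.modEq_iff_dvd' (by omega)).2 ((Dvd.intro_left _ rfl).trans h4)).symm⟩
  have h4 : ∀ h d, 1 ≤ h → d ∣ B h → d % 4 = 1 := by
    intro h d hh hd
    obtain ⟨c0, c1, -⟩ := HB h hh
    apply one_mod_four _ (by rintro rfl; exact c1 (Nat.eq_zero_of_zero_dvd hd))
    intro p hp h3
    have := (hbig _ p hp (by rw [c0]; exact_mod_cast h3.trans hd)).1
    omega
  have hodd : ∀ h d, 1 ≤ h → d ∣ B h → Odd d := fun h d hh hd =>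
    Nat.odd_iff.2 (by have := h4 h d hh hd; omega)
  obtain ⟨hA, hA0, hAc, hAR, hAS⟩ := HB 1 le_rfl
  have hAS1 := hAS (Nat.ModEq.refl _)
  rw [pow_one] at hA hAR hAS1
  obtain ⟨r, hr1, hrJ⟩ := exists_class (hodd 1 _ le_rfl dvd_rfl) hns hAc
  set A := B 1 with hAd
  set y : ℤ := (a : ℤ) ^ e with hy
  have hrA : Nat.Coprime r A := by
    by_contra h
    have := (jacobiSym.eq_zero_iff (a := (r : ℤ)) (b := A)).2 ⟨hA0, by simpa using h⟩
    rw [this] at hrJ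
    norm_num at hrJ
  have hrQ : Nat.Coprime r Q := by
    rw [Nat.Coprime, hr1.gcd_eq]; simp
  have one : ∀ l : ℕ, l.Prime → l ≡ 1 [MOD Q] → ∃ D : ℕ, D ≠ 0 ∧
      (cyclotomic (n * l) ℤ).eval (a : ℤ) = D ∧ B l = D * A ∧ M ∣ l - 1 ∧
      J((D : ℤ) | A) = J((l : ℤ) | A) ∧ J(R.eval (y ^ l) | D) = 1 := by
    intro l hl hl1
    obtain ⟨D, hD0, hD⟩ := cyc_nat ha (n * l)
    obtain ⟨c0, c1, -, c3, c4⟩ := HB l hl.one_le
    have hBD : B l = D * A := by
      have := cyc_split hl (hln l hl hl1) (a : ℤ)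
      rw [c0, hD, hA] at this
      exact_mod_cast this
    have hM : M ∣ l - 1 := hMQ.trans ((Nat.modEq_iff_dvd' hl.one_le).1 hl1.symm)
    obtain ⟨s1, s2⟩ := step hl.one_le hM hA0 hD0 hAR (hBD ▸ c3) hS hAS1 (hBD ▸ c4 hl1)
    exact ⟨D, hD0, hD, hBD, hM, (s1 A dvd_rfl).2, s2⟩
  refine ⟨n, Q, Q * A, r, A, hn0, hQ0, by positivity, hrQ.mul_right hrA, fun k hk hkr => ?_⟩
  have hk1 : k ≡ 1 [MOD Q] := (hkr.of_dvd (Dvd.intro _ rfl)).trans hr1
  have hkJ : J((k : ℤ) | A) = -1 := by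
    rw [← hrJ]
    apply jacobiSym.mod_left'
    exact_mod_cast hkr.of_dvd (Dvd.intro_left _ rfl)
  have hkA : ¬ k ∣ A := by
    intro h
    rw [jac_zero_of_dvd hk hA0 h] at hkJ
    norm_num at hkJ
  obtain ⟨N, hN0, hN, hBk, hMk, hNJ, -⟩ := one k hk hk1
  rw [hkJ] at hNJ
  obtain ⟨k0, k1, k2, k3, k4⟩ := HB k hk.one_le
  have hNB : N ∣ B k := ⟨A, hBk⟩
  have hkodd : Odd k := by
    refine hk.odd_of_ne_two ?_
    rintro rfl
    exact hln 2 hk hk1 ((show 2 ∣ 8 * m by omega).trans h8n)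
  have := Fact.mk hk
  refine ⟨N, fun c => J((cyclotomic n ℤ).eval ((a : ℤ) ^ c) | k), hodd k N hk.one_le hNB,
    ?_, ?_, ?_, ?_, ?_⟩
  · rintro ⟨t, rfl⟩
    push_cast at hNJ
    rw [jacobiSym.mul_left] at hNJ
    nlinarith [mul_self_nonneg J((t : ℤ) | A)]
  · refine Nat.Coprime.mul_right (k2.coprime_dvd_left hNB) ?_
    apply Nat.coprime_of_dvd
    intro p hp h2 h3
    have h5 : (p : ℤ) ∣ (cyclotomic n ℤ).eval ((a : ℤ) ^ k) := by
      rw [k0]; exact_mod_cast h2.trans hNB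
    have h6 := Nat.le_of_dvd (by have := hk.two_le; omega) h3
    have h7 : ¬ p ∣ n * k := by
      intro h
      have := (Nat.prime_dvd_prime_iff_eq hp hk).1
        (((hp.dvd_mul).1 h).resolve_left (hprime _ p hp h5))
      have := hk.two_le
      omega
    have h8 := Nat.le_of_dvd (by have := hp.two_le; omega)
      (prim_of_dvd hp h7 (z := (a : ℤ)) (by rw [hN]; exact_mod_cast h2)).2
    have h9 : k ≤ n * k := Nat.le_mul_of_pos_left _ hn0
    have := hp.two_le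
    omega
  · intro c d hc hd hcd
    apply jacobiSym.mod_left'
    apply Int.ModEq.symm
    rw [Int.modEq_iff_dvd]
    refine Dvd.dvd.trans ?_ (sub_dvd_eval_sub _ _ _)
    rw [← ZMod.intCast_zmod_eq_zero_iff_dvd]
    push_cast
    by_cases h0 : (a : ZMod k) = 0
    · rw [h0, zero_pow (by omega), zero_pow (by omega), sub_self]
    · rw [sub_eq_zero]
      exact pow_eq_pow_of_modEq (hcd.of_dvd (Dvd.intro_left _ rfl))
        (ZMod.pow_card_sub_one_eq_one h0)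
  · intro c hc hcc
    apply jacobiSym.eq_one_or_neg_one
    rw [Int.gcd_comm, Int.gcd, Int.natAbs_natCast]
    apply (Nat.Prime.coprime_iff_not_dvd hk).2
    rw [← Int.natCast_dvd]
    intro h
    have h1 := (prim_of_dvd hk (hprime _ k hk h) h).1
    push_cast at h1
    have h0 : (a : ZMod k) ≠ 0 := by
      intro h0
      rw [h0, zero_pow (by omega), orderOf_zero] at h1
      omega
    have h2 : Nat.Coprime (orderOf (a : ZMod k)) c :=
      (hcc.coprime_dvd_right ((ZMod.orderOf_dvd_card_sub_one h0).mul_left Q)).symm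
    rw [h2.orderOf_pow] at h1
    have h3 : IsPrimitiveRoot (a : ZMod k) n := h1 ▸ IsPrimitiveRoot.orderOf _
    have h5 := h3.isRoot_cyclotomic hn0
    rw [IsRoot, ← map_cyclotomic_int, show (a : ZMod k) = ((a : ℤ) : ZMod k) by simp,
      eval_intCast_map] at h5
    apply hkA
    have h6 := (ZMod.intCast_zmod_eq_zero_iff_dvd _ _).1 (by simpa using h5)
    rw [hA] at h6
    exact_mod_cast h6
  intro l hl hAl hkl hl1 hhit
  obtain ⟨E, hE0, hE, hBl, hMl, hEJ, hER⟩ := one l hl hl1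
  obtain ⟨l0, l1, l2, l3, l4⟩ := HB l hl.one_le
  have hkl1 : 1 ≤ k * l := Nat.mul_pos hk.pos hl.pos
  obtain ⟨g0, g1, g2, g3, g4⟩ := HB (k * l) hkl1
  have g5 := g4 (by simpa using hk1.mul hl1)
  obtain ⟨D, hD0, hD⟩ := cyc_nat ha (n * k * l)
  have hknl : ¬ k ∣ n * l := by
    intro h
    have := (Nat.prime_dvd_prime_iff_eq hk hl).1 (((hk.dvd_mul).1 h).resolve_left (hln k hk hk1))
    omega
  have hsplit : B (k * l) = D * E * B k := by
    have h1 := cyc_split hl (hln l hl hl1) ((a : ℤ) ^ k)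
    rw [← pow_mul, g0, k0, cyc_split hk hknl, mul_right_comm n l k, hD, hE] at h1
    exact_mod_cast h1
  have hsplit2 : B (k * l) = D * N * B l := by
    rw [hsplit, hBk, hBl]; ring
  obtain ⟨s1, s2⟩ := step (y := y ^ k) (T := D * E) hl.one_le hMl k1 (mul_ne_zero hD0 hE0) k3
    (by rw [← pow_mul y k l, ← hsplit]; exact g3) hS (k4 hk1) (by rw [← pow_mul, ← hsplit]; exact g5)
  obtain ⟨s3, -⟩ := step (y := y ^ l) (T := D * N) hk.one_le hMk l1 (mul_ne_zero hD0 hN0) l3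
    (by rw [← pow_mul y l k, mul_comm l k, ← hsplit2]; exact g3) hS (l4 hl1)
    (by rw [← pow_mul, mul_comm l k, ← hsplit2]; exact g5)
  have hEB : E ∣ B l := ⟨A, hBl⟩
  have hDB : D ∣ B (k * l) := ⟨E * B k, by rw [hsplit]; ring⟩
  obtain ⟨s4, s5⟩ := s3 E hEB
  rw [← pow_mul, mul_comm l k, hER] at s4
  rw [← pow_mul, jacobiSym.mul_right' _ hD0 hE0, s4, mul_one] at s2
  have s6 := (s1 A ⟨N, by rw [hBk]; ring⟩).2
  have s7 := (s1 N hNB).2
  push_cast at s5 s6 s7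
  rw [jacobiSym.mul_left] at s5 s6 s7
  have hlA : J((l : ℤ) | A) ≠ 0 := by
    apply jacobiSym.ne_zero
    rw [Int.gcd_natCast_natCast]
    exact (Nat.coprime_of_lt_prime hA0 hAl hl)
  have u1 : J((D : ℤ) | A) = 1 := by
    rw [hEJ] at s6
    exact mul_right_cancel₀ hlA (by rw [one_mul]; exact s6)
  have u2 : J((N : ℤ) | E) = J((E : ℤ) | N) :=
    jacobiSym.quadratic_reciprocity_one_mod_four (h4 k N hk.one_le hNB) (hodd l E hl.one_le hEB)
  have u3 : J((cyclotomic n ℤ).eval ((a : ℤ) ^ l) | k) = -J((k : ℤ) | E) := by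
    rw [l0, jacobiSym.quadratic_reciprocity_one_mod_four (h4 l _ hl.one_le dvd_rfl) hkodd, hBl,
      jacobiSym.mul_right' _ hE0 hA0, hkJ]
    ring
  simp only [u3] at hhit
  have hDodd := hodd _ D hkl1 hDB
  have hJ4 : J(R.eval (y ^ (k * l)) * (E * B k : ℕ) | D) = -1 := by
    rw [jacobiSym.mul_left, s2, one_mul, jacobiSym.quadratic_reciprocity_one_mod_four
      (h4 _ _ hkl1 ⟨D, by rw [hsplit]; ring⟩) hDodd, jacobiSym.mul_right' _ hE0 k1, hBk,
      jacobiSym.mul_right' _ hN0 hA0, u1, mul_one]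
    rw [← s5, ← s7, u2] at hhit
    rcases jacobiSym.trichotomy (E : ℤ) N with h | h | h <;> rw [h] at hhit
    · simp at hhit
    · linarith
    · linarith
  have hDp : ∀ p : ℕ, p.Prime → p ∣ D →
      p ≡ 1 [MOD m] ∧ p % 8 = 1 ∧ orderOf (a : ZMod p) = n * k * l := by
    intro p hp hpD
    have h1 : (p : ℤ) ∣ (cyclotomic n ℤ).eval ((a : ℤ) ^ (k * l)) := by
      rw [g0]
      exact_mod_cast hpD.trans hDB
    obtain ⟨h3, h5⟩ := hbig _ p hp h1
    have h6 : ¬ p ∣ n * k * l := by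
      intro h
      rcases (hp.dvd_mul).1 h with h | h
      · have hpk : p = k := (Nat.prime_dvd_prime_iff_eq hp hk).1
          (((hp.dvd_mul).1 h).resolve_left (hprime _ p hp h1))
        subst hpk
        rw [mul_comm, pow_mul] at h1
        have h8 := fermat_dvd hp _ _ h1
        rw [l0, hBl] at h8
        have h9 : p ∣ E := ((hp.dvd_mul).1 (by exact_mod_cast h8)).resolve_right hkA
        rw [jac_zero_of_dvd hp hE0 h9] at hhit
        simp at hhit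
      · have hpl : p = l := (Nat.prime_dvd_prime_iff_eq hp hl).1 h
        subst hpl
        rw [pow_mul] at h1
        have h8 := fermat_dvd hp _ _ h1
        rw [k0, hBk] at h8
        rcases (hp.dvd_mul).1 (show p ∣ N * A by exact_mod_cast h8) with h9 | h9
        · rw [jac_zero_of_dvd hp hN0 h9] at hhit
          simp at hhit
        · exact hlA (jac_zero_of_dvd hp hA0 h9)
    have h7 := (prim_of_dvd hp h6 (z := (a : ℤ)) (by rw [hD]; exact_mod_cast hpD)).1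
    exact ⟨h5, h3, by simpa using h7⟩
  obtain ⟨p, hp, hpD, i, t, ht, hJ5⟩ := exists_neg hD0 hJ4
    (fun p hp hpD => by have := (hDp p hp hpD).2.1; omega)
  obtain ⟨h1, h2, h3⟩ := hDp p hp hpD
  have hYM : (a : ℤ) ^ (n * k * l) = (y ^ (k * l)) ^ M := by
    rw [hy, ← pow_mul, ← pow_mul, hne]; congr 1; ring
  have h8 : ((a ^ (n * k * l) - 1 : ℕ) : ℤ) =
      p * (p ^ (2 * i) * (R.eval (y ^ (k * l)) * (E * B k : ℕ) * t)) := by
    rw [Nat.cast_sub (Nat.one_le_pow _ _ (by omega)), Nat.cast_pow, hYM, Nat.cast_one, g3, hsplit,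
      ht]
    push_cast; ring
  have hp0 : (0 : ℤ) < p := by exact_mod_cast hp.pos
  have h5 : 0 ≤ R.eval (y ^ (k * l)) * (E * B k : ℕ) * t := by
    have h6 : (0 : ℤ) ≤ p * (p ^ (2 * i) * (R.eval (y ^ (k * l)) * (E * B k : ℕ) * t)) :=
      h8 ▸ Int.natCast_nonneg _
    exact nonneg_of_mul_nonneg_right (nonneg_of_mul_nonneg_right h6 hp0) (by positivity)
  obtain ⟨w, hw⟩ := Int.eq_ofNat_of_zero_le h5
  refine ⟨p, hp, h1, h2, h3, i, w, ?_, hw ▸ hJ5⟩
  rw [hw] at h8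
  have h7 : a ^ (n * k * l) - 1 = p * (p ^ (2 * i) * w) := by exact_mod_cast h8
  rw [h7, Nat.mul_div_cancel_left _ hp.pos]

end Pool.Agent.FQ5e
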